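import Pool.Agent.H527.MW.Stm

/-!
# Degrees of the elimination coefficients
-/

set_option autoImplicit false

namespace Pool.Agent.H527.MW

open Polynomial

theorem dgr : S_deg := by
  intro K _ Q hQ i j
  have hQ2 : 1 ≤ Q ^ 2 := Nat.one_le_pow _ _ (by omega)
  induction j generalizing i with
  | zero =>
    refine ⟨fun h => absurd h (Nat.not_lt_zero i), fun _ => ?_⟩
    have h0 : aa K Q 0 i = X ^ i := by rw [aa]
    rw [h0]
    refine ⟨pow_ne_zero _ X_ne_zero, ?_⟩
    rw [natDegree_X_pow]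
    simp
  | succ j ih =>
    have hs : ∀ i, aa K Q (j + 1) i =
        (aa K Q j j) ^ (Q ^ 2 - 1) * aa K Q j i - (aa K Q j i) ^ (Q ^ 2) := fun i => by rw [aa]
    obtain ⟨hjj0, hjj⟩ := (ih j).2 le_rfl
    refine ⟨fun hi => ?_, fun hi => ?_⟩
    · rw [hs]
      rcases Nat.lt_or_ge i j with h | h
      · rw [(ih i).1 h, mul_zero, zero_pow (by omega), sub_zero]
      · have : i = j := by omega
        subst this
        rw [← pow_succ, Nat.sub_add_cancel hQ2, sub_self]
    · obtain ⟨hji0, hji⟩ := (ih i).2 (by omega)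
      have h1 : ((aa K Q j j) ^ (Q ^ 2 - 1) * aa K Q j i).natDegree =
          (Q ^ 2 - 1) * (Q ^ (2 * j) * j) + Q ^ (2 * j) * i := by
        rw [natDegree_mul (pow_ne_zero _ hjj0) hji0, natDegree_pow, hjj, hji]
      have h2 : ((aa K Q j i) ^ (Q ^ 2)).natDegree = Q ^ 2 * (Q ^ (2 * j) * i) := by
        rw [natDegree_pow, hji]
      have hQ3 : 4 ≤ Q ^ 2 := by nlinarith
      have hP : 0 < Q ^ (2 * j) := Nat.pow_pos (by omega)
      have hlt : ((aa K Q j j) ^ (Q ^ 2 - 1) * aa K Q j i).natDegree <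
          ((aa K Q j i) ^ (Q ^ 2)).natDegree := by
        rw [h1, h2]
        have h3 : Q ^ (2 * j) * j < Q ^ (2 * j) * i := Nat.mul_lt_mul_of_pos_left (by omega) hP
        have h4 : (Q ^ 2 - 1) * (Q ^ (2 * j) * j) < (Q ^ 2 - 1) * (Q ^ (2 * j) * i) :=
          Nat.mul_lt_mul_of_pos_left h3 (by omega)
        have h5 : (Q ^ 2 - 1) * (Q ^ (2 * j) * i) + Q ^ (2 * j) * i =
            Q ^ 2 * (Q ^ (2 * j) * i) := by
          rw [Nat.sub_one_mul, Nat.sub_add_cancel]
          exact Nat.le_mul_of_pos_left _ (by omega)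
        omega
      have h6 : (aa K Q (j + 1) i).natDegree = Q ^ (2 * (j + 1)) * i := by
        rw [hs, natDegree_sub_eq_right_of_natDegree_lt hlt, h2]
        ring
      refine ⟨fun h0 => ?_, h6⟩
      rw [h0, natDegree_zero] at h6
      have : 0 < Q ^ (2 * (j + 1)) * i := Nat.mul_pos (Nat.pow_pos (by omega)) (by omega)
      omega

end Pool.Agent.H527.MW
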