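import Pool.Agent.H527.WS.Stm

/-!
# Montgomery's conjecture on Weyl sums over `F_q[T]`, `k = p^j + 1` (helper527): statements of the parts

`Q = p^j`, `A : K[X] →ₗ[K] K` the functional `G ↦ res(α G)`.  The form `N(x, y) = A(x^Q y)` is
`Q`-semilinear in `x` and linear in `y`, and `N(T x, y) = N(x, T^Q y)`.  `W` is the radical of
`ψ(N(x, h) + N(h, x))` on the polynomials of degree `< n`.

Regularisation: `Zs B = {x ∈ B : N(x, B) = 0}`, `Bs B = {x ∈ B : N(x, Zs B) = 0}`; `B_0` = polynomials of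
degree `< n`, `B_{k+1} = Bs B_k`.  All these spaces are almost closed under multiplication by `T`
(up to a codimension bounded in terms of `Q`, `k`).
-/

set_option autoImplicit false

namespace Pool.Agent.H527.MW

open Polynomial Module
open scoped Classical
open Pool.Agent.H527.WS (V PQ S W Nonsing fn Near emb)

noncomputable section

theorem add_pow_PQ {K : Type} [Field K] {Q : ℕ} (hQ : PQ K Q) (x y : K[X]) : (x + y) ^ Q = x ^ Q + y ^ Q := by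
  obtain ⟨p, j, hp, hK, hj, rfl⟩ := hQ
  have := Fact.mk hp
  have := hK
  exact add_pow_char_pow x y p j

theorem PQ_pos {K : Type} [Field K] {Q : ℕ} (hQ : PQ K Q) : 2 ≤ Q := by
  obtain ⟨p, j, hp, hK, hj, rfl⟩ := hQ
  exact le_trans hp.two_le (Nat.le_self_pow (by omega) p)

/-- The left kernel of `N(x, y) = A(x^Q y)` on `B × Y`. -/
def lk {K : Type} [Field K] {Q : ℕ} (hQ : PQ K Q) (A : K[X] →ₗ[K] K) (B Y : Submodule K K[X]) :
    Submodule K K[X] where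
  carrier := {x | x ∈ B ∧ ∀ y ∈ Y, A (x ^ Q * y) = 0}
  add_mem' := by
    rintro a b ⟨ha, ha'⟩ ⟨hb, hb'⟩
    refine ⟨B.add_mem ha hb, fun y hy => ?_⟩
    rw [add_pow_PQ hQ, add_mul, map_add, ha' y hy, hb' y hy, add_zero]
  zero_mem' := by
    refine ⟨B.zero_mem, fun y _ => ?_⟩
    have := PQ_pos hQ
    rw [zero_pow (by omega), zero_mul, map_zero]
  smul_mem' := by
    rintro c a ⟨ha, ha'⟩
    refine ⟨B.smul_mem c ha, fun y hy => ?_⟩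
    rw [_root_.smul_pow, smul_mul_assoc, map_smul, ha' y hy, smul_zero]

/-- The right kernel of `N(x, y) = A(x^Q y)` on `B × Y`. -/
def rk {K : Type} [Field K] (Q : ℕ) (A : K[X] →ₗ[K] K) (B Y : Submodule K K[X]) :
    Submodule K K[X] where
  carrier := {y | y ∈ Y ∧ ∀ x ∈ B, A (x ^ Q * y) = 0}
  add_mem' := by
    rintro a b ⟨ha, ha'⟩ ⟨hb, hb'⟩
    refine ⟨Y.add_mem ha hb, fun y hy => ?_⟩
    rw [mul_add, map_add, ha' y hy, hb' y hy, add_zero]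
  zero_mem' := ⟨Y.zero_mem, fun y _ => by rw [mul_zero, map_zero]⟩
  smul_mem' := by
    rintro c a ⟨ha, ha'⟩
    refine ⟨Y.smul_mem c ha, fun y hy => ?_⟩
    rw [mul_smul_comm, map_smul, ha' y hy, smul_zero]

def Zs {K : Type} [Field K] {Q : ℕ} (hQ : PQ K Q) (A : K[X] →ₗ[K] K) (B : Submodule K K[X]) :
    Submodule K K[X] := lk hQ A B B

def Bs {K : Type} [Field K] {Q : ℕ} (hQ : PQ K Q) (A : K[X] →ₗ[K] K) (B : Submodule K K[X]) :
    Submodule K K[X] := lk hQ A B (Zs hQ A B)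

/-- The chain `B_0 ⊇ B_1 ⊇ …`. -/
def Bk {K : Type} [Field K] {Q : ℕ} (hQ : PQ K Q) (A : K[X] →ₗ[K] K) (n : ℕ) : ℕ → Submodule K K[X]
  | 0 => degreeLT K n
  | k + 1 => Bs hQ A (Bk hQ A n k)

/-- `{y : y, T y, …, T^(M-1) y ∈ B}`. -/
def Sh {K : Type} [Field K] (M : ℕ) (B : Submodule K K[X]) : Submodule K K[X] where
  carrier := {y | ∀ i < M, X ^ i * y ∈ B}
  add_mem' := fun {a b} ha hb i hi => by rw [mul_add]; exact B.add_mem (ha i hi) (hb i hi)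
  zero_mem' := fun i _ => by rw [mul_zero]; exact B.zero_mem
  smul_mem' := fun c a ha i hi => by rw [mul_smul_comm]; exact B.smul_mem c (ha i hi)

/-- `B` is closed under multiplication by `T` up to codimension `d`. -/
def TD {K : Type} [Field K] (d : ℕ) (B : Submodule K K[X]) : Prop :=
  finrank K B ≤ finrank K (Sh 2 B) + d

/-- `B` consists of polynomials of bounded degree, so it is finite dimensional. -/
def Fd {K : Type} [Field K] (B : Submodule K K[X]) : Prop := ∃ m : ℕ, B ≤ degreeLT K m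

/-- The radical of the form `ψ(A(x^Q h + x h^Q))` on `B`. -/
def WB {K : Type} [Field K] [Fintype K] (ψ : AddChar K ℂ) (Q : ℕ) (A : K[X] →ₗ[K] K)
    (B : Submodule K K[X]) : Set K[X] :=
  {h | h ∈ B ∧ ∀ x ∈ B, ψ (A (x ^ Q * h + x * h ^ Q)) = 1}

/-- **MW-RANK.**  Equality of the ranks.  (`{x ^ Q : x ∈ B}` is a subspace of the same dimension, since
every element of `K` is a `Q`-th power; then it is the usual statement for the bilinear form `A(u y)`.) -/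
def S_rank : Prop :=
  ∀ (K : Type) [Field K] [Fintype K] (Q : ℕ) (hQ : PQ K Q) (A : K[X] →ₗ[K] K) (B Y : Submodule K K[X]),
    Fd B → Fd Y →
    finrank K B + finrank K (rk Q A B Y) = finrank K Y + finrank K (lk hQ A B Y)

/-- **MW-SH.**  Induction: `y ∈ Sh (M+1) B ↔ y ∈ Sh M B ∧ X^M y ∈ B`; for `M ≥ 2` the injective linear map
`Sh M B → B`, `y ↦ X^(M-1) y`, has image in `B`, and `y ∈ Sh (M+1) B` iff `X^(M-1) y ∈ Sh 2 B`, whose codimension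
in `B` is `≤ d`. -/
def S_sh : Prop :=
  ∀ (K : Type) [Field K] [Fintype K] (d M : ℕ) (B : Submodule K K[X]), Fd B → TD d B →
    finrank K B ≤ finrank K (Sh (M + 1) B) + M * d

/-- **MW-TDZ.**  For `z ∈ Zs B` with `T z ∈ B` (codimension `≤ d`) the functional `y ↦ A((T z)^Q y) =
A(z^Q (T^Q y))` vanishes on `Sh (Q+1) B`, of codimension `≤ Q d` in `B`; so it vanishes on `B` for `z` in a
subspace of codimension `≤ Q d` more (use `S_rank` for the spaces `{T z}` and `B`). -/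
def S_tdz : Prop := S_rank → S_sh →
  ∀ (K : Type) [Field K] [Fintype K] (Q : ℕ) (hQ : PQ K Q) (A : K[X] →ₗ[K] K) (d : ℕ) (B : Submodule K K[X]),
    Fd B → TD d B → TD ((Q + 1) * d) (Zs hQ A B)

/-- **MW-TDB.**  For `y ∈ Bs B` with `T y ∈ B` (codimension `≤ d`) the functional `z ↦ A((T y)^Q z) =
A(y^Q (T^Q z))` vanishes on `Sh (Q+1) (Zs B)`, of codimension `≤ Q d'` in `Zs B`. -/
def S_tdb : Prop := S_rank → S_sh →
  ∀ (K : Type) [Field K] [Fintype K] (Q : ℕ) (hQ : PQ K Q) (A : K[X] →ₗ[K] K) (d d' : ℕ)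
    (B : Submodule K K[X]), Fd B → TD d B → TD d' (Zs hQ A B) → TD (d + Q * d') (Bs hQ A B)

/-- **MW-MON1.**  `S_rank` for `Zs (Bs B)` and `B`: the right kernel contains `Bs B`, the left kernel is contained in
`Zs B`. -/
def S_mon1 : Prop := S_rank →
  ∀ (K : Type) [Field K] [Fintype K] (Q : ℕ) (hQ : PQ K Q) (A : K[X] →ₗ[K] K) (B : Submodule K K[X]), Fd B →
    finrank K (Zs hQ A (Bs hQ A B)) + finrank K (Bs hQ A B) ≤ finrank K (Zs hQ A B) + finrank K B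

/-- **MW-MON2.**  `S_rank` for `B' = Bs B` and `Zs B'`: the left kernel is `Bs B'`, the right kernel contains
`Zs B` (which is contained in `Zs B'`, and `N(B', Zs B) = 0`). -/
def S_mon2 : Prop := S_rank →
  ∀ (K : Type) [Field K] [Fintype K] (Q : ℕ) (hQ : PQ K Q) (A : K[X] →ₗ[K] K) (B : Submodule K K[X]), Fd B →
    finrank K (Bs hQ A B) + finrank K (Zs hQ A B) ≤
      finrank K (Bs hQ A (Bs hQ A B)) + finrank K (Zs hQ A (Bs hQ A B))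

/-- **MW-SEQ.**  With `b k = finrank (Bk k)`, `z k = finrank (Zs (Bk k))`: `z (k+1) + b (k+1) ≤ z k + b k` and
`b (k+1) + z k ≤ b (k+2) + z (k+1)`, so `b k - b (k+1)` is nonincreasing, with sum `≤ n`. -/
def S_seq : Prop := S_mon1 → S_mon2 → S_rank →
  ∀ (K : Type) [Field K] [Fintype K] (Q : ℕ) (hQ : PQ K Q) (A : K[X] →ₗ[K] K) (n k : ℕ),
    (k + 1) * finrank K (Bk hQ A n k) ≤ (k + 1) * finrank K (Bk hQ A n (k + 1)) + n

/-- **MW-TDK.** -/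
def S_tdk : Prop := S_rank → S_sh → S_tdz → S_tdb →
  ∀ (K : Type) [Field K] [Fintype K] (Q : ℕ) (hQ : PQ K Q) (A : K[X] →ₗ[K] K) (n k : ℕ),
    TD ((Q ^ 2 + Q + 1) ^ k) (Bk hQ A n k) ∧ TD ((Q + 1) * (Q ^ 2 + Q + 1) ^ k) (Zs hQ A (Bk hQ A n k))

/-- **MW-HANK.**  Intersect `U` and `Y` with the polynomials of degree `< D`. -/
def S_hank : Prop :=
  ∀ (K : Type) [Field K] [Fintype K] (A : K[X] →ₗ[K] K) (D m n : ℕ) (U Y : Submodule K K[X]), Nonsing A D →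
    U ≤ degreeLT K m → Y ≤ degreeLT K n → (∀ u ∈ U, ∀ y ∈ Y, A (u * y) = 0) →
    finrank K U + finrank K Y ≤ D + (m - D) + (n - D)

/-- **MW-SPAN.**  The sums `∑_{t < Q} T^t x_t^Q`, `x_t ∈ B`, form a space of dimension `Q dim B`. -/
def S_span : Prop :=
  ∀ (K : Type) [Field K] [Fintype K] (Q : ℕ), PQ K Q → ∀ (n : ℕ) (B : Submodule K K[X]), B ≤ degreeLT K n →
    ∃ U : Submodule K K[X], U ≤ degreeLT K (Q * n) ∧ finrank K U = Q * finrank K B ∧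
      ∀ u ∈ U, ∃ x : Fin Q → K[X], (∀ t, x t ∈ B) ∧ u = ∑ t : Fin Q, X ^ (t : ℕ) * (x t) ^ Q

/-- **MW-SLICK.**  `S_hank` for the space `U` of `S_span` and `Sh Q H`. -/
def S_slick : Prop := S_hank → S_span → S_sh →
  ∀ (K : Type) [Field K] [Fintype K] (Q : ℕ), PQ K Q → ∀ (A : K[X] →ₗ[K] K) (D n d : ℕ)
    (B H : Submodule K K[X]), Nonsing A D → B ≤ degreeLT K n → H ≤ degreeLT K n → TD d H →
    (∀ x ∈ B, ∀ h ∈ H, A (x ^ Q * h) = 0) →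
    Q * finrank K B + finrank K H ≤ D + (Q * n - D) + (n - D) + Q * d

/-- **MW-INC.**  The radical is contained in `Bs B`: for `z ∈ Zs B`, `h ∈ WB B`: `1 = ψ(A(z^Q h + z h^Q)) =
ψ(A(h^Q z))`, for all `z` in a `K`-space, so `A(h^Q z) = 0`. -/
def S_inc : Prop :=
  ∀ (K : Type) [Field K] [Fintype K] (ψ : AddChar K ℂ) (Q : ℕ) (hQ : PQ K Q) (A : K[X] →ₗ[K] K)
    (B : Submodule K K[X]), ψ ≠ 1 → ∀ h ∈ WB ψ Q A B, h ∈ Bs hQ A B

/-- **MW-RED.**  `WB B + Zs B ⊆ WB (Bs B)`, `WB B ∩ Zs B` is the right kernel of `N` on `B × Zs B`, and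
`Bs B` is the left kernel; use `S_rank`. -/
def S_red : Prop := S_rank → S_inc →
  ∀ (K : Type) [Field K] [Fintype K] (ψ : AddChar K ℂ) (Q : ℕ) (hQ : PQ K Q) (A : K[X] →ₗ[K] K)
    (B : Submodule K K[X]), ψ ≠ 1 → Fd B →
    (WB ψ Q A B).ncard * Fintype.card K ^ finrank K B ≤
      (WB ψ Q A (Bs hQ A B)).ncard * Fintype.card K ^ finrank K (Bs hQ A B)

/-- The coefficients in the elimination: `a_{0,i} = T^i`, `a_{j+1,i} = a_{j,j}^(Q²-1) a_{j,i} - a_{j,i}^(Q²)`. -/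
def aa (K : Type) [Field K] (Q : ℕ) : ℕ → ℕ → K[X]
  | 0, i => X ^ i
  | j + 1, i => (aa K Q j j) ^ (Q ^ 2 - 1) * aa K Q j i - (aa K Q j i) ^ (Q ^ 2)

/-- **MW-DEG.** -/
def S_deg : Prop :=
  ∀ (K : Type) [Field K] (Q : ℕ), 2 ≤ Q → ∀ i j : ℕ,
    (i < j → aa K Q j i = 0) ∧ (j ≤ i → aa K Q j i ≠ 0 ∧ (aa K Q j i).natDegree = Q ^ (2 * j) * i)

/-- **MW-STEP.**  Elimination.  Let `u(a) = ∑ a_i^Q h_i`, `v(a) = ∑ a_i h_i^Q`.  For `y ∈ Sh M (Bs B)`: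
`ψ(A(y^Q u(a) + y v(a))) = 1` (`x = a_i y` in the definition of `WB`).  If `u(a) ∈ Zs B`, then
`A(y^Q u(a)) = 0` for `y ∈ Bs B` and `A(y u(a)^Q) = 0` for `y ∈ B`, so `A(y v(a)) = 0` for `y ∈ Sh M (Bs B)`, and
`A(y v(c)) = 0`, `c = a_j^(Q²-1) a - a^(Q²)`, for `y ∈ Sh (2M) (Bs B)`, hence `A(y^Q u(c)) = 0`. -/
def S_step : Prop :=
  ∀ (K : Type) [Field K] [Fintype K] (ψ : AddChar K ℂ) (Q : ℕ) (hQ : PQ K Q) (A : K[X] →ₗ[K] K)
    (B : Submodule K K[X]) (M R : ℕ) (h a : Fin R → K[X]) (j : Fin R), ψ ≠ 1 →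
    (∀ i, h i ∈ WB ψ Q A B) → (∀ i, (a i).degree < (M : WithBot ℕ)) →
    ((a j) ^ (Q ^ 2 - 1)).degree < (M : WithBot ℕ) →
    (∀ i, ((a j) ^ (Q ^ 2 - 1) * a i - (a i) ^ (Q ^ 2)).degree < (M : WithBot ℕ)) →
    ∑ i, (a i) ^ Q * h i ∈ Zs hQ A B →
    ∀ y ∈ Sh (2 * M) (Bs hQ A B),
      A (y ^ Q * ∑ i, ((a j) ^ (Q ^ 2 - 1) * a i - (a i) ^ (Q ^ 2)) ^ Q * h i) = 0

/-- **MW-GRP.**  Counting: `𝒦_j = {h : u_0(h), …, u_j(h) ∈ Z}`; `|G|^R |Z| ≤ |P| |𝒦_0|`,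
`|𝒦_j| |Z| ≤ |T| |𝒦_{j+1}|`, `|𝒦_{R-1}| ≤ |Z|^R` (triangular system). -/
def S_grp : Prop :=
  ∀ (K : Type) [Field K] [Fintype K] (R : ℕ) (G Z T P : AddSubgroup K[X]), 1 ≤ R →
    (G : Set K[X]).Finite → (Z : Set K[X]).Finite → (T : Set K[X]).Finite → (P : Set K[X]).Finite →
    Z ≤ T → Z ≤ P → ∀ f : ℕ → ℕ → K[X],
    (∀ i j, i < j → f j i = 0) → (∀ j, f j j ≠ 0) →
    (∀ h : Fin R → K[X], (∀ i, h i ∈ G) → ∑ i : Fin R, f 0 i * h i ∈ P) →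
    (∀ h : Fin R → K[X], (∀ i, h i ∈ G) → ∀ j : ℕ, j + 1 < R → ∑ i : Fin R, f j i * h i ∈ Z →
      ∑ i : Fin R, f (j + 1) i * h i ∈ T) →
    Nat.card G ^ R ≤ Nat.card P * Nat.card T ^ (R - 1)

/-- **MW-KEY.**  `G = WB B ∩ Sh M (Bs B)`, `T = {u ∈ Bs B : N(Sh (2M) (Bs B), u) = 0}`, `P = Bs B`, `Z = Zs B`,
`f j i = (aa j i)^Q`, `M` large in terms of `Q`, `R`. -/
def S_key : Prop := S_rank → S_sh → S_inc → S_deg → S_step → S_grp →
  ∀ Q R : ℕ, 1 ≤ R → ∃ c : ℕ,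
  ∀ (K : Type) [Field K] [Fintype K] (ψ : AddChar K ℂ) (hQ : PQ K Q) (A : K[X] →ₗ[K] K)
    (B : Submodule K K[X]) (d : ℕ), ψ ≠ 1 → Fd B → TD d (Bs hQ A B) →
    (WB ψ Q A B).ncard ^ R ≤
      Fintype.card K ^ (finrank K (Bs hQ A B) + (R - 1) * finrank K (Zs hQ A (Bs hQ A B)) + c * d)

/-- **MW-ITER.** -/
def S_iter : Prop := S_rank → S_inc → S_red →
  ∀ (K : Type) [Field K] [Fintype K] (ψ : AddChar K ℂ) (Q : ℕ) (hQ : PQ K Q) (A : K[X] →ₗ[K] K)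
    (n k : ℕ), ψ ≠ 1 →
    (W ψ Q A n n).card * Fintype.card K ^ n ≤
      (WB ψ Q A (Bk hQ A n k)).ncard * Fintype.card K ^ finrank K (Bk hQ A n k)

/-- The quantity `min(D, n, (Q+1)n - D)` (or `0`). -/
def rr (Q n D : ℕ) : ℕ := Q * n + n - (D + (Q * n - D) + (n - D))

/-- **The bound for `W`.** -/
def S_main : Prop :=
  ∀ (K : Type) [Field K] [Fintype K] (ψ : AddChar K ℂ) (Q : ℕ), PQ K Q → ψ ≠ 1 →
    ∀ ε : ℝ, 0 < ε → ∃ C : ℝ, 0 < C ∧ ∀ (n D : ℕ) (A : K[X] →ₗ[K] K), Nonsing A D →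
      ((W ψ Q A n n).card : ℝ) ≤
        C * (Fintype.card K : ℝ) ^ ((n : ℝ) - 2 * (rr Q n D : ℝ) / (Q + 1) + ε * n)

/-- **MW-NUM.**  The inequality for the dimensions.  `b k = finrank (Bk k)`, `z k = finrank (Zs (Bk k))`,
`E = D + (Q n - D) + (n - D)`, `d` as in `S_tdk`.  `S_slick` for `(Zs (Bk (k+1)), Bk (k+1))` and for
`(Bk (k+1), Zs (Bk k))`: `Q z(k+1) + b(k+1) ≤ E + Q d`, `Q b(k+1) + z k ≤ E + Q d'`; and
`z(k+1) - z k ≤ b k - b(k+1) ≤ n / (k+1)`. -/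
def S_num : Prop := S_rank → S_mon1 → S_seq → S_mon2 → S_tdk → S_sh → S_tdz → S_tdb → S_slick → S_hank → S_span →
  ∀ Q k : ℕ, ∃ c : ℕ, ∀ (K : Type) [Field K] [Fintype K] (hQ : PQ K Q) (A : K[X] →ₗ[K] K) (n D : ℕ), Nonsing A D →
    (k + 1) * ((Q + 1) * (finrank K (Zs hQ A (Bk hQ A n (k + 1))) + finrank K (Bk hQ A n k))) ≤
      (k + 1) * (2 * (D + (Q * n - D) + (n - D)) + c) + (Q + 2) * n

/-- **MW-FINW.**  Assembly: with `b`, `z` as above, `S_iter` and `S_key` (for `B = Bk k`) give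
`|W|^R q^(R n) ≤ q^(R b k + b(k+1) + (R-1) z(k+1) + c)`, so `|W| ≤ q^(b k + z(k+1) - n + n/R + c)`; then `S_num`.
Choose `k` and `R` large in terms of `ε`.  (If `D > (Q+1) n`, `rr = 0` and the bound is trivial.) -/
def S_finw : Prop := S_rank → S_sh → S_tdz → S_tdb → S_tdk → S_key → S_inc → S_deg → S_step → S_grp → S_iter →
  S_red →
  (∀ Q k : ℕ, ∃ c : ℕ, ∀ (K : Type) [Field K] [Fintype K] (hQ : PQ K Q) (A : K[X] →ₗ[K] K) (n D : ℕ), Nonsing A D →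
    (k + 1) * ((Q + 1) * (finrank K (Zs hQ A (Bk hQ A n (k + 1))) + finrank K (Bk hQ A n k))) ≤
      (k + 1) * (2 * (D + (Q * n - D) + (n - D)) + c) + (Q + 2) * n) →
  S_main

/-- **MW-LAST.**  The final bound for the sum. -/
def S_last : Prop := S_main →
  ∀ (K : Type) [Field K] [Fintype K] (ψ : AddChar K ℂ) (Q : ℕ), PQ K Q → ψ ≠ 1 →
    ∀ ε : ℝ, 0 < ε → ∃ C : ℝ, 0 < C ∧ ∀ (n : ℕ) (A : K[X] →ₗ[K] K) (ξ : K[X] →+ K) (D : ℕ), Nonsing A D →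
      ‖S ψ Q n A ξ‖ ≤ C * ((Fintype.card K : ℝ) ^ n) ^ (1 + ε) *
        (((Fintype.card K : ℝ) ^ D)⁻¹ + ((Fintype.card K : ℝ) ^ n)⁻¹ +
          (Fintype.card K : ℝ) ^ D / ((Fintype.card K : ℝ) ^ n) ^ (Q + 1)) ^ ((1 : ℝ) / (Q + 1))

end

end Pool.Agent.H527.MW
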