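import Pool.Agent.H527.WS.Fin
import Pool.Agent.H527.MW.Stm

/-! # The sharp bound for `|g| ≤ N`, with the loss `|g|^ε` only -/

set_option autoImplicit false

namespace Pool.Agent.H527.MW

open Polynomial
open scoped Classical
open Pool.Agent.H527.WS (V PQ S W Nonsing fn Near emb)

variable {K : Type} [Field K] [Fintype K]

lemma V_mono {m n : ℕ} (h : m ≤ n) {x : K[X]} (hx : x ∈ V K m) : x ∈ V K n := by
  rw [WS.IndAux.mem_V] at hx ⊢
  exact lt_of_lt_of_le hx (by exact_mod_cast h)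

theorem finA (hm : S_main) {ψ : AddChar K ℂ} {Q : ℕ} (hQ : PQ K Q) (hψ : ψ ≠ 1) (ε : ℝ) (hε : 0 < ε) :
    ∃ C : ℝ, 0 < C ∧ ∀ (n : ℕ) (α : LaurentSeries K) (ξ : K[X] →+ K) (b g : K[X]), IsCoprime b g → g ≠ 0 →
      g.natDegree ≤ n → Near α b g g.natDegree →
      ‖S ψ Q n (fn α) ξ‖ ≤ C * (Fintype.card K : ℝ) ^ ((n : ℝ) - (1 / (Q + 1) - ε) * g.natDegree) := by
  have hq1 : (1 : ℝ) < Fintype.card K := WS.one_lt_q
  have hq : (0 : ℝ) < Fintype.card K := lt_trans zero_lt_one hq1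
  obtain ⟨C, hC, h⟩ := hm K ψ Q hQ hψ (2 * ε) (by positivity)
  refine ⟨Real.sqrt C, Real.sqrt_pos.mpr hC, fun n α ξ b g hc hg hn hN => ?_⟩
  set D := g.natDegree with hD
  refine WS.norm_le_of_W (e := (1 / (Q + 1) - ε) * D) hQ ξ hC ?_
  have h1 := h D D (fn α) (WS.lau K α b g hc hg hN)
  have hrr : rr Q D D = D := by
    unfold rr
    have h2 : D ≤ Q * D := Nat.le_mul_of_pos_left D (by have := PQ_pos hQ; omega)
    omega
  rw [hrr] at h1
  have h2 := WS.shr K ψ Q D n n (fn α) hQ hn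
  have h3 : (W ψ Q (fn α) D n).card ≤ (W ψ Q (fn α) D D).card := by
    refine Finset.card_le_card fun x hx => ?_
    unfold W at hx ⊢
    rw [Finset.mem_filter] at hx ⊢
    exact ⟨hx.1, fun y hy => hx.2 y (V_mono hn hy)⟩
  have h4 : ((W ψ Q (fn α) n n).card : ℝ) ≤ (Fintype.card K : ℝ) ^ (n - D) * ((W ψ Q (fn α) D D).card : ℝ) := by
    exact_mod_cast h2.trans (Nat.mul_le_mul_left _ h3)
  refine h4.trans ((mul_le_mul_of_nonneg_left h1 (by positivity)).trans (le_of_eq ?_))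
  rw [← Real.rpow_natCast, mul_left_comm, ← Real.rpow_add hq, Nat.cast_sub hn]
  congr 2
  ring

end Pool.Agent.H527.MW
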