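import Pool.Agent.H527.MW.Stm

/-!
# MW-FINW: assembly of the bound for `W` (helper370 for helper527)
-/

set_option autoImplicit false

namespace Pool.Agent.H527.MW

open Polynomial Module
open scoped Classical
open Pool.Agent.H527.WS (V PQ S W Nonsing fn Near emb)

namespace FnwAux

theorem Bs_le {K : Type} [Field K] {Q : ℕ} (hQ : PQ K Q) (A : K[X] →ₗ[K] K) (B : Submodule K K[X]) :
    Bs hQ A B ≤ B := fun _ hx => hx.1

theorem Bk_le {K : Type} [Field K] {Q : ℕ} (hQ : PQ K Q) (A : K[X] →ₗ[K] K) (n k : ℕ) :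
    Bk hQ A n k ≤ degreeLT K n := by
  induction k with
  | zero => exact le_rfl
  | succ k ih => exact (Bs_le hQ A (Bk hQ A n k)).trans ih

theorem finrank_Bk_le {K : Type} [Field K] {Q : ℕ} (hQ : PQ K Q) (A : K[X] →ₗ[K] K) (n k : ℕ) :
    finrank K (Bk hQ A n k) ≤ n := by
  have h1 : Module.Finite K (degreeLT K n) := Module.Finite.equiv (degreeLTEquiv K n).symm
  have h2 : finrank K (degreeLT K n) = n := by
    rw [(degreeLTEquiv K n).finrank_eq, finrank_fin_fun]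
  calc finrank K (Bk hQ A n k) ≤ finrank K (degreeLT K n) := Submodule.finrank_mono (Bk_le hQ A n k)
    _ = n := h2

theorem card_W_le {K : Type} [Field K] [Fintype K] (ψ : AddChar K ℂ) (Q n : ℕ) (A : K[X] →ₗ[K] K) :
    (W ψ Q A n n).card ≤ Fintype.card K ^ n := by
  refine (Finset.card_le_card (Finset.filter_subset _ _)).trans ?_
  refine Finset.card_image_le.trans ?_
  rw [Finset.card_univ, Fintype.card_fun, Fintype.card_fin]

/-- the real inequality -/
theorem real_bound (q w : ℝ) (hq : 1 < q) (R n m : ℕ) (hR : 1 ≤ R)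
    (h : (w * q ^ n) ^ R ≤ q ^ m) : w ≤ q ^ ((m : ℝ) / R - n) := by
  have hq0 : 0 < q := by linarith
  have hR0 : (0 : ℝ) < R := by exact_mod_cast hR
  have h1 : w * q ^ n ≤ q ^ ((m : ℝ) / R) := by
    have h2 : (w * q ^ n) ^ R ≤ (q ^ ((m : ℝ) / R)) ^ R := by
      rw [← Real.rpow_natCast (q ^ ((m : ℝ) / R)) R, ← Real.rpow_mul hq0.le,
        div_mul_cancel₀ _ hR0.ne', Real.rpow_natCast]
      exact h
    exact le_of_pow_le_pow_left₀ (by omega) (Real.rpow_nonneg hq0.le _) h2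
  rw [Real.rpow_sub hq0, Real.rpow_natCast, le_div_iff₀ (pow_pos hq0 n)]
  exact h1

end FnwAux

open FnwAux in
theorem fnw : S_finw := by
  intro hrank hsh htdz htdb htdk hkey hinc hdeg hstep hgrp hiter hred hnum K _ _ ψ Q hQ hψ ε hε
  have tdk := htdk hrank hsh htdz htdb
  have iter := hiter hrank hinc hred
  have key := hkey hrank hsh hinc hdeg hstep hgrp
  -- the choice of `k` and `R`
  obtain ⟨k, hk⟩ : ∃ k : ℕ, ((Q : ℝ) + 2) / ((k + 1) * (Q + 1)) ≤ ε / 2 := by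
    obtain ⟨k, hk⟩ := exists_nat_ge (4 / ε)
    refine ⟨k, ?_⟩
    have hQ0 : (0 : ℝ) ≤ Q := Nat.cast_nonneg Q
    have hk0 : (0 : ℝ) ≤ k := Nat.cast_nonneg k
    rw [div_le_iff₀ (by positivity)]
    have h1 : 4 ≤ k * ε := by
      rwa [div_le_iff₀ hε] at hk
    have h2 : (2 : ℝ) ≤ ε / 2 * (k + 1) := by nlinarith
    calc (Q : ℝ) + 2 ≤ 2 * (Q + 1) := by linarith
      _ ≤ ε / 2 * (k + 1) * (Q + 1) := mul_le_mul_of_nonneg_right h2 (by positivity)
      _ = ε / 2 * ((k + 1) * (Q + 1)) := by ring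
  obtain ⟨R, hR1, hR⟩ : ∃ R : ℕ, 1 ≤ R ∧ 1 / (R : ℝ) ≤ ε / 2 := by
    obtain ⟨R, hR⟩ := exists_nat_ge (2 / ε)
    refine ⟨R + 1, by omega, ?_⟩
    have hR0 : (0 : ℝ) ≤ R := Nat.cast_nonneg R
    push_cast
    rw [div_le_iff₀ (by positivity)]
    have h1 : 2 ≤ R * ε := by
      rwa [div_le_iff₀ hε] at hR
    nlinarith
  obtain ⟨c, hc⟩ := key Q R hR1
  obtain ⟨c', hc'⟩ := hnum Q k
  obtain ⟨d, hd⟩ : ∃ d : ℕ, d = (Q ^ 2 + Q + 1) ^ (k + 1) := ⟨_, rfl⟩
  obtain ⟨q, hq⟩ : ∃ q : ℝ, q = (Fintype.card K : ℝ) := ⟨_, rfl⟩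
  have hq1 : 1 < q := by
    rw [hq]
    exact_mod_cast Fintype.one_lt_card
  have hq0 : 0 < q := by linarith
  refine ⟨q ^ ((c' : ℝ) + c * d), Real.rpow_pos_of_pos hq0 _, ?_⟩
  intro n D A hns
  rw [← hq, ← Real.rpow_add hq0]
  have hn0 : (0 : ℝ) ≤ n := Nat.cast_nonneg n
  have hc0 : (0 : ℝ) ≤ c := Nat.cast_nonneg c
  have hc'0 : (0 : ℝ) ≤ c' := Nat.cast_nonneg c'
  have hd0 : (0 : ℝ) ≤ d := Nat.cast_nonneg d
  have hQ0 : (0 : ℝ) ≤ Q := Nat.cast_nonneg Q
  have hcd : (0 : ℝ) ≤ c * d := mul_nonneg hc0 hd0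
  by_cases hD : D ≤ (Q + 1) * n
  · -- the main case
    have hrr : rr Q n D + (D + (Q * n - D) + (n - D)) = (Q + 1) * n := by
      have hQ2 : 2 ≤ Q := PQ_pos hQ
      have h1 : n ≤ Q * n := Nat.le_mul_of_pos_left n (by omega)
      have h2 : (Q + 1) * n = Q * n + n := by ring
      unfold rr
      omega
    obtain ⟨E, hE⟩ : ∃ E : ℕ, E = D + (Q * n - D) + (n - D) := ⟨_, rfl⟩
    obtain ⟨b, hb⟩ : ∃ b : ℕ, b = finrank K (Bk hQ A n k) := ⟨_, rfl⟩
    obtain ⟨b', hb'⟩ : ∃ b' : ℕ, b' = finrank K (Bk hQ A n (k + 1)) := ⟨_, rfl⟩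
    obtain ⟨z, hz⟩ : ∃ z : ℕ, z = finrank K (Zs hQ A (Bk hQ A n (k + 1))) := ⟨_, rfl⟩
    have hb'n : b' ≤ n := hb' ▸ finrank_Bk_le hQ A n (k + 1)
    have h1 := hc' K hQ A n D hns
    rw [← hE, ← hb, ← hz] at h1
    rw [← hE] at hrr
    have h2 := iter K ψ Q hQ A n k hψ
    rw [← hb] at h2
    have h3 : (WB ψ Q A (Bk hQ A n k)).ncard ^ R ≤
        Fintype.card K ^ (b' + (R - 1) * z + c * d) := by
      rw [hb', hz, hd]
      exact hc K ψ hQ A (Bk hQ A n k) _ hψ ⟨n, Bk_le hQ A n k⟩ (tdk K Q hQ A n (k + 1)).1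
    have h4 : ((W ψ Q A n n).card * Fintype.card K ^ n) ^ R ≤
        Fintype.card K ^ (n + R * z + c * d + R * b) := by
      calc ((W ψ Q A n n).card * Fintype.card K ^ n) ^ R
          ≤ ((WB ψ Q A (Bk hQ A n k)).ncard * Fintype.card K ^ b) ^ R := Nat.pow_le_pow_left h2 R
        _ = (WB ψ Q A (Bk hQ A n k)).ncard ^ R * Fintype.card K ^ (R * b) := by
            rw [mul_pow, ← pow_mul, mul_comm b R]
        _ ≤ Fintype.card K ^ (b' + (R - 1) * z + c * d) * Fintype.card K ^ (R * b) :=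
            Nat.mul_le_mul_right _ h3
        _ = Fintype.card K ^ (b' + (R - 1) * z + c * d + R * b) := by rw [← pow_add]
        _ ≤ Fintype.card K ^ (n + R * z + c * d + R * b) := by
            apply Nat.pow_le_pow_right Fintype.card_pos
            have : (R - 1) * z ≤ R * z := Nat.mul_le_mul_right z (Nat.sub_le R 1)
            omega
    have h5 : (((W ψ Q A n n).card : ℝ) * q ^ n) ^ R ≤ q ^ (n + R * z + c * d + R * b) := by
      rw [hq]
      exact_mod_cast h4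
    have h6 := real_bound q _ hq1 R n _ hR1 h5
    refine h6.trans (Real.rpow_le_rpow_of_exponent_le hq1.le ?_)
    have hR0 : (0 : ℝ) < R := by exact_mod_cast hR1
    have hR1' : (1 : ℝ) ≤ R := by exact_mod_cast hR1
    have h7 : ((n + R * z + c * d + R * b : ℕ) : ℝ) / R = n * (1 / R) + z + c * d / R + b := by
      push_cast
      field_simp
    rw [h7]
    have h8 : (c : ℝ) * d / R ≤ c * d := div_le_self hcd hR1'
    have h9 : (n : ℝ) * (1 / R) ≤ n * (ε / 2) := mul_le_mul_of_nonneg_left hR hn0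
    have h10 : ((k : ℝ) + 1) * ((Q + 1) * (z + b)) ≤ (k + 1) * (2 * E + c') + (Q + 2) * n := by
      exact_mod_cast h1
    have h11 : ((rr Q n D : ℕ) : ℝ) + E = (Q + 1) * n := by exact_mod_cast hrr
    have hk0 : (0 : ℝ) < (k : ℝ) + 1 := by positivity
    have hQ1 : (0 : ℝ) < (Q : ℝ) + 1 := by positivity
    have h12 : (z : ℝ) + b ≤ (2 * E + c') / (Q + 1) + (Q + 2) / ((k + 1) * (Q + 1)) * n := by
      have h13 : (z : ℝ) + b ≤ ((k + 1) * (2 * E + c') + (Q + 2) * n) / ((k + 1) * (Q + 1)) := by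
        rw [le_div_iff₀ (by positivity)]
        linarith
      refine h13.trans (le_of_eq ?_)
      field_simp
    have h14 : (2 * (E : ℝ) + c') / (Q + 1) ≤ 2 * n - 2 * (rr Q n D : ℝ) / (Q + 1) + c' := by
      have h15 : (E : ℝ) = (Q + 1) * n - (rr Q n D : ℝ) := by linarith
      rw [h15]
      have h16 : (c' : ℝ) / (Q + 1) ≤ c' := div_le_self hc'0 (by linarith)
      have h17 : (2 * (((Q : ℝ) + 1) * n - (rr Q n D : ℝ)) + c') / (Q + 1) =
          2 * n - 2 * (rr Q n D : ℝ) / (Q + 1) + c' / (Q + 1) := by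
        field_simp
      rw [h17]
      linarith
    have h18 : ((Q : ℝ) + 2) / ((k + 1) * (Q + 1)) * n ≤ ε / 2 * n := mul_le_mul_of_nonneg_right hk hn0
    linarith
  · -- the trivial case
    have hrr : rr Q n D = 0 := by
      have h2 : (Q + 1) * n = Q * n + n := by ring
      unfold rr
      omega
    have h1 := card_W_le ψ Q n A
    have h2 : ((W ψ Q A n n).card : ℝ) ≤ q ^ (n : ℝ) := by
      rw [Real.rpow_natCast, hq]
      exact_mod_cast h1
    refine h2.trans (Real.rpow_le_rpow_of_exponent_le hq1.le ?_)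
    rw [hrr]
    have h3 : 0 ≤ ε * n := mul_nonneg hε.le hn0
    simp only [Nat.cast_zero, mul_zero, zero_div, sub_zero]
    linarith

end Pool.Agent.H527.MW
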