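import Pool.Agent.H527.MW.Stm

/-!
# Counting with a triangular system of conditions
-/

set_option autoImplicit false

namespace Pool.Agent.H527.MW

open Polynomial Module

namespace GrpAux

variable {M N : Type} [AddCommGroup M] [AddCommGroup N]

theorem card_mul_rel {H L : AddSubgroup M} (h : H ≤ L) :
    Nat.card H * H.relIndex L = Nat.card L := by
  have h1 := AddSubgroup.relIndex_mul_relIndex (⊥ : AddSubgroup M) H L bot_le h
  rwa [AddSubgroup.relIndex_bot_left, AddSubgroup.relIndex_bot_left] at h1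

/-- The counting step. -/
theorem step (H : AddSubgroup M) (φ : M →+ N) (Z P : AddSubgroup N) (hP : (P : Set N).Finite)
    (hZP : Z ≤ P) (hφ : ∀ x ∈ H, φ x ∈ P) :
    Nat.card H * Nat.card Z ≤ Nat.card P * Nat.card (H ⊓ Z.comap φ : AddSubgroup M) := by
  have hfin : Finite P := hP
  have h1 := card_mul_rel (inf_le_left : H ⊓ Z.comap φ ≤ H)
  rw [AddSubgroup.inf_relIndex_left, AddSubgroup.relIndex_comap] at h1
  have h2 := card_mul_rel hZP
  have h3 : Z.relIndex P ≠ 0 := by
    intro h0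
    rw [h0, mul_zero] at h2
    exact Nat.card_pos.ne' h2.symm
  have h4 : Z.relIndex (H.map φ) ≤ Z.relIndex P := by
    refine AddSubgroup.relIndex_le_of_le_right ?_ h3
    rintro _ ⟨x, hx, rfl⟩
    exact hφ x hx
  rw [← h1, ← h2]
  calc Nat.card (H ⊓ Z.comap φ : AddSubgroup M) * Z.relIndex (H.map φ) * Nat.card Z
      ≤ Nat.card (H ⊓ Z.comap φ : AddSubgroup M) * Z.relIndex P * Nat.card Z :=
        Nat.mul_le_mul_right _ (Nat.mul_le_mul_left _ h4)
    _ = Nat.card Z * Z.relIndex P * Nat.card (H ⊓ Z.comap φ : AddSubgroup M) := by ring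

variable {D : Type} [CommRing D]

/-- The linear forms. -/
def u (R : ℕ) (f : ℕ → ℕ → D) (j : ℕ) : (Fin R → D) →+ D where
  toFun h := ∑ i : Fin R, f j i * h i
  map_zero' := by simp
  map_add' a b := by simp [mul_add, Finset.sum_add_distrib]

theorem u_apply (R : ℕ) (f : ℕ → ℕ → D) (j : ℕ) (h : Fin R → D) :
    u R f j h = ∑ i : Fin R, f j i * h i := rfl

/-- The groups. -/
def KK (R : ℕ) (f : ℕ → ℕ → D) (G Z : AddSubgroup D) : ℕ → AddSubgroup (Fin R → D)
  | 0 => AddSubgroup.pi Set.univ (fun _ : Fin R => G) ⊓ Z.comap (u R f 0)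
  | j + 1 => KK R f G Z j ⊓ Z.comap (u R f (j + 1))

theorem mem_G {R : ℕ} {f : ℕ → ℕ → D} {G Z : AddSubgroup D} {j : ℕ} {h : Fin R → D}
    (hh : h ∈ KK R f G Z j) : ∀ i, h i ∈ G := by
  induction j with
  | zero => exact fun i => hh.1 i trivial
  | succ j ih => exact ih hh.1

theorem mem_Z {R : ℕ} {f : ℕ → ℕ → D} {G Z : AddSubgroup D} {j : ℕ} {h : Fin R → D}
    (hh : h ∈ KK R f G Z j) : ∀ i ≤ j, u R f i h ∈ Z := by
  induction j with
  | zero =>
    intro i hi
    obtain rfl : i = 0 := by omega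
    exact hh.2
  | succ j ih =>
    intro i hi
    rcases Nat.lt_or_ge j i with h1 | h1
    · obtain rfl : i = j + 1 := by omega
      exact hh.2
    · exact ih hh.1 i h1

theorem zero_of [IsDomain D] {R : ℕ} {f : ℕ → ℕ → D} (h0 : ∀ i j, i < j → f j i = 0)
    (h1 : ∀ j, f j j ≠ 0) (h : Fin R → D) (hu : ∀ j < R, u R f j h = 0) : h = 0 := by
  have key : ∀ m : ℕ, ∀ i : Fin R, R ≤ i + m → h i = 0 := by
    intro m
    induction m with
    | zero => intro i hi; exact absurd i.2 (by omega)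
    | succ m ih =>
      intro i hi
      have h2 := hu i i.2
      rw [u_apply, Finset.sum_eq_single i] at h2
      · exact (mul_eq_zero.1 h2).resolve_left (h1 i)
      · intro b _ hb
        rcases lt_or_gt_of_ne (fun hc : (b : ℕ) = i => hb (Fin.ext hc)) with h3 | h3
        · rw [h0 _ _ h3, zero_mul]
        · rw [ih b (by omega), mul_zero]
      · intro hi
        exact absurd (Finset.mem_univ i) hi
  funext i
  exact key R i (by omega)

theorem card_last [IsDomain D] {R : ℕ} (hR : 1 ≤ R) {f : ℕ → ℕ → D} (h0 : ∀ i j, i < j → f j i = 0)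
    (h1 : ∀ j, f j j ≠ 0) (G Z : AddSubgroup D) (hZ : (Z : Set D).Finite) :
    Nat.card (KK R f G Z (R - 1)) ≤ Nat.card Z ^ R := by
  have hfin : Finite Z := hZ
  have h2 : Nat.card (Fin R → Z) = Nat.card Z ^ R := by
    rw [Nat.card_fun, Nat.card_fin]
  rw [← h2]
  refine Nat.card_le_card_of_injective
    (fun h : KK R f G Z (R - 1) => fun j : Fin R => (⟨u R f j h.1, mem_Z h.2 j (by omega)⟩ : Z)) ?_
  intro a b hab
  apply Subtype.ext
  rw [← sub_eq_zero]
  refine zero_of h0 h1 _ fun j hj => ?_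
  rw [map_sub, sub_eq_zero]
  exact congrArg Subtype.val (congrFun hab ⟨j, hj⟩)

theorem main [IsDomain D] (R : ℕ) (G Z T P : AddSubgroup D) (hR : 1 ≤ R)
    (hZ : (Z : Set D).Finite) (hT : (T : Set D).Finite)
    (hP : (P : Set D).Finite) (hZT : Z ≤ T) (hZP : Z ≤ P) (f : ℕ → ℕ → D)
    (h0 : ∀ i j, i < j → f j i = 0) (h1 : ∀ j, f j j ≠ 0)
    (h2 : ∀ h : Fin R → D, (∀ i, h i ∈ G) → ∑ i : Fin R, f 0 i * h i ∈ P)
    (h3 : ∀ h : Fin R → D, (∀ i, h i ∈ G) → ∀ j : ℕ, j + 1 < R → ∑ i : Fin R, f j i * h i ∈ Z →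
      ∑ i : Fin R, f (j + 1) i * h i ∈ T) :
    Nat.card G ^ R ≤ Nat.card P * Nat.card T ^ (R - 1) := by
  have hZf : Finite Z := hZ
  have key : ∀ j < R, Nat.card G ^ R * Nat.card Z ^ (j + 1) ≤
      Nat.card P * Nat.card T ^ j * Nat.card (KK R f G Z j) := by
    intro j
    induction j with
    | zero =>
      intro _
      have hpi : Nat.card (AddSubgroup.pi Set.univ (fun _ : Fin R => G)) = Nat.card G ^ R := by
        have e : Nat.card (Fin R → G) = Nat.card G ^ R := by
          rw [Nat.card_fun, Nat.card_fin]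
        rw [← e]
        refine Nat.card_congr
          { toFun := fun h i => ⟨h.1 i, h.2 i trivial⟩
            invFun := fun h => ⟨fun i => (h i).1, fun i _ => (h i).2⟩
            left_inv := fun h => rfl
            right_inv := fun h => rfl }
      have h4 := step (AddSubgroup.pi Set.univ (fun _ : Fin R => G)) (u R f 0) Z P hP hZP
        (fun h hh => h2 h fun i => hh i trivial)
      rw [hpi] at h4
      simpa [KK] using h4
    | succ j ih =>
      intro hj
      have h4 := step (KK R f G Z j) (u R f (j + 1)) Z T hT hZT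
        (fun h hh => h3 h (mem_G hh) j hj (mem_Z hh j le_rfl))
      have h5 := ih (by omega)
      calc Nat.card G ^ R * Nat.card Z ^ (j + 1 + 1)
          = (Nat.card G ^ R * Nat.card Z ^ (j + 1)) * Nat.card Z := by ring
        _ ≤ (Nat.card P * Nat.card T ^ j * Nat.card (KK R f G Z j)) * Nat.card Z :=
          Nat.mul_le_mul_right _ h5
        _ = Nat.card P * Nat.card T ^ j * (Nat.card (KK R f G Z j) * Nat.card Z) := by ring
        _ ≤ Nat.card P * Nat.card T ^ j * (Nat.card T * Nat.card (KK R f G Z (j + 1))) :=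
          Nat.mul_le_mul_left _ h4
        _ = Nat.card P * Nat.card T ^ (j + 1) * Nat.card (KK R f G Z (j + 1)) := by ring
  have h4 := key (R - 1) (by omega)
  have h5 := card_last hR h0 h1 G Z hZ
  rw [Nat.sub_add_cancel hR] at h4
  have h6 := h4.trans (Nat.mul_le_mul_left _ h5)
  exact Nat.le_of_mul_le_mul_right h6 (pow_pos Nat.card_pos R)

end GrpAux

theorem grp : S_grp := by
  intro K _ _ R G Z T P hR _ hZ hT hP hZT hZP f h0 h1 h2 h3
  exact GrpAux.main R G Z T P hR hZ hT hP hZT hZP f h0 h1 h2 h3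

end Pool.Agent.H527.MW
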