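import Pool.Agent.H527.MW.Stm
import Pool.Agent.H527.WS.Ind

/-!
# Orthogonal spaces for a nonsingular Hankel form (helper117, for helper527, MP_3b0be2_nt)
-/

set_option autoImplicit false

namespace Pool.Agent.H527.MW

open Polynomial Module
open scoped Classical
open Pool.Agent.H527.WS (V PQ S W Nonsing fn Near emb)

noncomputable section

namespace HankAux

theorem fin_degreeLT (K : Type) [Field K] (n : ℕ) : FiniteDimensional K (degreeLT K n) :=
  Module.Finite.equiv (degreeLTEquiv K n).symm

theorem finrank_degreeLT (K : Type) [Field K] (n : ℕ) : finrank K (degreeLT K n) = n := by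
  rw [(degreeLTEquiv K n).finrank_eq]
  simp

theorem fin_le {K : Type} [Field K] {n : ℕ} {U : Submodule K K[X]} (h : U ≤ degreeLT K n) :
    FiniteDimensional K U := by
  have := fin_degreeLT K n
  exact Submodule.finiteDimensional_of_le h

/-- the coefficients of degree at least `D` -/
def co {K : Type} [Field K] (D m : ℕ) : K[X] →ₗ[K] (Fin (m - D) → K) :=
  LinearMap.pi fun i => lcoeff K (D + (i : ℕ))

theorem inf_le {K : Type} [Field K] (D m : ℕ) (U : Submodule K K[X]) (hU : U ≤ degreeLT K m) :
    finrank K U ≤ finrank K (U ⊓ degreeLT K D : Submodule K K[X]) + (m - D) := by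
  have hf := fin_le hU
  have hf2 : FiniteDimensional K (U ⊓ degreeLT K D : Submodule K K[X]) :=
    fin_le (n := D) inf_le_right
  have h1 := LinearMap.finrank_range_add_finrank_ker ((co D m).comp U.subtype)
  have h2 : finrank K (LinearMap.range ((co D m).comp U.subtype)) ≤ m - D := by
    refine (Submodule.finrank_le _).trans ?_
    simp
  have hmem : ∀ u : LinearMap.ker ((co D m).comp U.subtype),
      ((u : U) : K[X]) ∈ (U ⊓ degreeLT K D : Submodule K K[X]) := by
    intro u
    refine ⟨(u : U).2, ?_⟩
    change ((u : U) : K[X]) ∈ degreeLT K D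
    have hu := u.2
    rw [LinearMap.mem_ker] at hu
    rw [mem_degreeLT, degree_lt_iff_coeff_zero]
    intro k hk
    by_cases hkm : k < m
    · have h3 := congrFun hu ⟨k - D, by omega⟩
      have h4 : (((u : U) : K[X])).coeff (D + (k - D)) = 0 := h3
      rwa [Nat.add_sub_cancel' hk] at h4
    · have h5 := hU (u : U).2
      rw [mem_degreeLT, degree_lt_iff_coeff_zero] at h5
      exact h5 k (not_lt.1 hkm)
  let F : LinearMap.ker ((co D m).comp U.subtype) →ₗ[K] (U ⊓ degreeLT K D : Submodule K K[X]) :=
    (U.subtype.comp (LinearMap.ker ((co D m).comp U.subtype)).subtype).codRestrict _ hmem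
  have hinj : Function.Injective F := by
    intro a b hab
    have h3 : ((a : U) : K[X]) = ((b : U) : K[X]) :=
      congrArg (fun w : (U ⊓ degreeLT K D : Submodule K K[X]) => (w : K[X])) hab
    exact Subtype.ext (Subtype.ext h3)
  have h6 : finrank K (LinearMap.ker ((co D m).comp U.subtype)) ≤
      finrank K (U ⊓ degreeLT K D : Submodule K K[X]) :=
    LinearMap.finrank_le_finrank_of_injective hinj
  omega

theorem orth {K : Type} [Field K] [Fintype K] (A : K[X] →ₗ[K] K) (D : ℕ)
    (U Y : Submodule K K[X]) (hA : Nonsing A D) (hU : U ≤ degreeLT K D) (hY : Y ≤ degreeLT K D)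
    (h : ∀ u ∈ U, ∀ y ∈ Y, A (u * y) = 0) : finrank K U + finrank K Y ≤ D := by
  have hfL := fin_degreeLT K D
  have hfU := fin_le hU
  have hfY := fin_le hY
  let g : U →ₗ[K] Dual K (degreeLT K D) :=
    { toFun := fun u => A.comp ((LinearMap.mulLeft K (u : K[X])).comp (degreeLT K D).subtype)
      map_add' := fun a b => by
        ext y
        simp [add_mul]
      map_smul' := fun c a => by
        ext y
        simp }
  have hg : ∀ (u : U) (y : degreeLT K D), g u y = A ((u : K[X]) * (y : K[X])) := fun u y => rfl
  have hinj : Function.Injective g := by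
    rw [injective_iff_map_eq_zero]
    intro u hu
    have h1 : (u : K[X]) = 0 := by
      refine hA _ ((WS.IndAux.mem_V D _).2 (mem_degreeLT.1 (hU u.2))) fun y hy => ?_
      have h2 := LinearMap.congr_fun hu ⟨y, mem_degreeLT.2 ((WS.IndAux.mem_V D y).1 hy)⟩
      rw [hg] at h2
      rw [mul_comm]
      exact h2
    exact Subtype.ext h1
  have h1 : finrank K (LinearMap.range g) = finrank K U := LinearMap.finrank_range_of_inj hinj
  have h2 := Subspace.finrank_add_finrank_dualCoannihilator_eq (LinearMap.range g)
  rw [h1, finrank_degreeLT] at h2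
  have h3 : Submodule.comap (degreeLT K D).subtype Y ≤ (LinearMap.range g).dualCoannihilator := by
    intro y hy
    rw [Submodule.mem_dualCoannihilator]
    rintro _ ⟨u, rfl⟩
    rw [hg]
    exact h u u.2 y hy
  have h4 : finrank K (Submodule.comap (degreeLT K D).subtype Y) = finrank K Y :=
    (Submodule.comapSubtypeEquivOfLe hY).finrank_eq
  have h5 := Submodule.finrank_mono h3
  rw [h4] at h5
  omega

end HankAux

open HankAux in
theorem hank : S_hank := by
  intro K _ _ A D m n U Y hA hU hY h
  have h1 := inf_le D m U hU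
  have h2 := inf_le D n Y hY
  have h3 := orth A D (U ⊓ degreeLT K D) (Y ⊓ degreeLT K D) hA inf_le_right inf_le_right
    (fun u hu y hy => h u hu.1 y hy.1)
  omega

end

end Pool.Agent.H527.MW
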