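import Pool.Agent.H527.MW.Stm

/-!
# Project MW (helper527), part INC (helper245): the radical is contained in `Bs B`
-/

set_option autoImplicit false

namespace Pool.Agent.H527.MW

open Polynomial Module
open Pool.Agent.H527.WS (V PQ S W Nonsing fn Near emb)

namespace IncAux

/-- If `ψ (a c) = 1` for all `a` and `ψ ≠ 1` then `c = 0`. -/
lemma eq_zero_of_psi {K : Type} [Field K] (ψ : AddChar K ℂ) (hψ : ψ ≠ 1) (c : K)
    (h : ∀ a : K, ψ (a * c) = 1) : c = 0 := by
  by_contra hc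
  apply hψ
  ext x
  have h1 := h (x * c⁻¹)
  rw [inv_mul_cancel_right₀ hc] at h1
  rw [h1, AddChar.one_apply]

end IncAux

/-- **MW-INC.** -/
theorem inc : S_inc := by
  intro K _ _ ψ Q hQ A B hψ h hh
  obtain ⟨hB, hrad⟩ := hh
  refine ⟨hB, fun z hz => ?_⟩
  obtain ⟨hzB, hzZ⟩ := hz
  have h1 : A (z * h ^ Q) = 0 := by
    apply IncAux.eq_zero_of_psi ψ hψ
    intro a
    have h2 := hrad (a • z) (B.smul_mem a hzB)
    have h3 : A ((a • z) ^ Q * h) = 0 := by
      rw [_root_.smul_pow, smul_mul_assoc, map_smul, hzZ h hB, smul_zero]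
    rwa [map_add, h3, zero_add, smul_mul_assoc, map_smul, smul_eq_mul] at h2
  rw [mul_comm]
  exact h1

end Pool.Agent.H527.MW
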