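import Pool.Agent.H527.MW.Stm
import Pool.Agent.H527.WS.Ind

/-!
# MW-ITER: iteration along the chain (helper727, for helper527, MP_3b0be2_nt)
-/

set_option autoImplicit false

namespace Pool.Agent.H527.MW

open Polynomial Module
open scoped Classical
open Pool.Agent.H527.WS (V PQ S W Nonsing fn Near emb)

noncomputable section

namespace ItrAux

theorem Bk_le {K : Type} [Field K] {Q : ℕ} (hQ : PQ K Q) (A : K[X] →ₗ[K] K) (n k : ℕ) :
    Bk hQ A n k ≤ degreeLT K n := by
  induction k with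
  | zero => exact le_refl _
  | succ k ih => exact fun x hx => ih hx.1

theorem finrank_degreeLT (K : Type) [Field K] (n : ℕ) : finrank K (degreeLT K n) = n := by
  rw [LinearEquiv.finrank_eq (degreeLTEquiv K n), Module.finrank_fin_fun]

theorem WB_zero {K : Type} [Field K] [Fintype K] (ψ : AddChar K ℂ) (Q : ℕ) (A : K[X] →ₗ[K] K) (n : ℕ) :
    WB ψ Q A (degreeLT K n) = ((W ψ Q A n n : Finset K[X]) : Set K[X]) := by
  ext h
  rw [Finset.mem_coe]
  unfold W
  rw [Finset.mem_filter, WS.IndAux.mem_V]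
  constructor
  · rintro ⟨h1, h2⟩
    exact ⟨mem_degreeLT.1 h1, fun x hx => h2 x (mem_degreeLT.2 ((WS.IndAux.mem_V n x).1 hx))⟩
  · rintro ⟨h1, h2⟩
    exact ⟨mem_degreeLT.2 h1, fun x hx => h2 x ((WS.IndAux.mem_V n x).2 (mem_degreeLT.1 hx))⟩

end ItrAux

theorem itr : S_iter := by
  intro hrank hinc hred K _ _ ψ Q hQ A n k hψ
  induction k with
  | zero =>
    change (W ψ Q A n n).card * Fintype.card K ^ n ≤
      (WB ψ Q A (degreeLT K n)).ncard * Fintype.card K ^ finrank K (degreeLT K n)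
    rw [ItrAux.WB_zero, Set.ncard_coe_finset, ItrAux.finrank_degreeLT]
  | succ k ih =>
    exact ih.trans (hred hrank hinc K ψ Q hQ A (Bk hQ A n k) hψ ⟨n, ItrAux.Bk_le hQ A n k⟩)

end

end Pool.Agent.H527.MW
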