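import Pool.Agent.H527.MW.Stm

/-!
# The bound for the radical (helper346, for helper527, MP_3b0be2_nt)
-/

set_option autoImplicit false

namespace Pool.Agent.H527.MW

open Polynomial Module
open scoped Classical
open Pool.Agent.H527.WS (V PQ S W Nonsing fn Near emb)

noncomputable section

namespace KeyAux

variable {K : Type} [Field K]

theorem neg_pow_PQ {Q : ℕ} (hQ : PQ K Q) (x : K[X]) : (-x) ^ Q = -x ^ Q := by
  have h1 := add_pow_PQ hQ x (-x)
  have h2 := PQ_pos hQ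
  rw [add_neg_cancel, zero_pow (by omega)] at h1
  exact eq_neg_of_add_eq_zero_right h1.symm

theorem Sh_le {M : ℕ} (hM : 1 ≤ M) (B : Submodule K K[X]) : Sh M B ≤ B := by
  intro y hy
  have h := hy 0 (by omega)
  rwa [pow_zero, one_mul] at h

theorem Zs_le {Q : ℕ} (hQ : PQ K Q) (A : K[X] →ₗ[K] K) (B : Submodule K K[X]) :
    Zs hQ A B ≤ B := fun _ hx => hx.1

theorem Bs_le {Q : ℕ} (hQ : PQ K Q) (A : K[X] →ₗ[K] K) (B : Submodule K K[X]) :
    Bs hQ A B ≤ B := fun _ hx => hx.1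

theorem Zs_le_Bs {Q : ℕ} (hQ : PQ K Q) (A : K[X] →ₗ[K] K) (B : Submodule K K[X]) :
    Zs hQ A B ≤ Bs hQ A B := fun _ hx => ⟨hx.1, fun y hy => hx.2 y hy.1⟩

theorem Fd_le {B C : Submodule K K[X]} (h : B ≤ C) (hC : Fd C) : Fd B := by
  obtain ⟨m, hm⟩ := hC
  exact ⟨m, h.trans hm⟩

theorem Fd_fin {B : Submodule K K[X]} (h : Fd B) : Module.Finite K B := by
  obtain ⟨m, hm⟩ := h
  exact Submodule.finiteDimensional_of_le hm

theorem Fd_card [Fintype K] {B : Submodule K K[X]} (h : Fd B) :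
    Nat.card B = Fintype.card K ^ finrank K B := by
  have := Fd_fin h
  rw [Module.natCard_eq_pow_finrank (K := K), Nat.card_eq_fintype_card]

theorem Fd_finite [Fintype K] {B : Submodule K K[X]} (h : Fd B) :
    (B : Set K[X]).Finite := by
  have h1 := Fd_card h
  have h2 : Nat.card B ≠ 0 := by
    rw [h1]
    exact pow_ne_zero _ Fintype.card_ne_zero
  have h3 : Finite B := Nat.finite_of_card_ne_zero h2
  exact Set.toFinite _

/-- multiplication by a polynomial of small degree. -/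
theorem mul_mem {M : ℕ} {B : Submodule K K[X]} {h g : K[X]} (hh : h ∈ Sh M B)
    (hg : g.degree < (M : WithBot ℕ)) : g * h ∈ B := by
  have h1 : g = ∑ i ∈ Finset.range M, g.coeff i • X ^ i := by
    ext k
    rw [finsetSum_coeff]
    simp only [coeff_smul, coeff_X_pow, smul_eq_mul, mul_ite, mul_one, mul_zero]
    rw [Finset.sum_ite_eq]
    by_cases hk : k < M
    · rw [if_pos (Finset.mem_range.2 hk)]
    · rw [if_neg (by rw [Finset.mem_range]; exact hk)]
      refine coeff_eq_zero_of_degree_lt (lt_of_lt_of_le hg ?_)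
      exact_mod_cast (not_lt.1 hk)
  rw [h1, Finset.sum_mul]
  refine Submodule.sum_mem _ fun i hi => ?_
  rw [smul_mul_assoc]
  exact B.smul_mem _ (hh i (Finset.mem_range.1 hi))

/-- The radical as a group. -/
def WG {Q : ℕ} [Fintype K] (ψ : AddChar K ℂ) (hQ : PQ K Q) (A : K[X] →ₗ[K] K)
    (B : Submodule K K[X]) : AddSubgroup K[X] where
  carrier := WB ψ Q A B
  add_mem' := by
    rintro a b ⟨ha, ha'⟩ ⟨hb, hb'⟩
    refine ⟨B.add_mem ha hb, fun x hx => ?_⟩
    have e : x ^ Q * (a + b) + x * (a + b) ^ Q =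
        (x ^ Q * a + x * a ^ Q) + (x ^ Q * b + x * b ^ Q) := by
      rw [add_pow_PQ hQ]
      ring
    rw [e, map_add, AddChar.map_add_eq_mul, ha' x hx, hb' x hx, one_mul]
  zero_mem' := by
    refine ⟨B.zero_mem, fun x _ => ?_⟩
    have := PQ_pos hQ
    rw [zero_pow (by omega), mul_zero, mul_zero, add_zero, map_zero, AddChar.map_zero_eq_one]
  neg_mem' := by
    rintro a ⟨ha, ha'⟩
    refine ⟨B.neg_mem ha, fun x hx => ?_⟩
    have e : x ^ Q * (-a) + x * (-a) ^ Q = -(x ^ Q * a + x * a ^ Q) := by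
      rw [neg_pow_PQ hQ]
      ring
    have h1 : ψ (A (x ^ Q * a + x * a ^ Q)) * ψ (-(A (x ^ Q * a + x * a ^ Q))) = 1 := by
      rw [← AddChar.map_add_eq_mul, add_neg_cancel, AddChar.map_zero_eq_one]
    rw [ha' x hx, one_mul] at h1
    rw [e, map_neg, h1]

/-- Counting: a subgroup `W` of `P` and its intersection with a subgroup `H` of `P`. -/
theorem card_inter (W H P : AddSubgroup K[X]) (hW : W ≤ P) (hH : H ≤ P)
    (hP : (P : Set K[X]).Finite) :
    Nat.card W * Nat.card H ≤ Nat.card (W ⊓ H : AddSubgroup K[X]) * Nat.card P := by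
  have hPf : Finite P := hP.to_subtype
  have h1 : Nat.card (W ⊓ H : AddSubgroup K[X]) * H.relIndex W = Nat.card W := by
    have h := AddSubgroup.relIndex_mul_relIndex ⊥ (W ⊓ H) W bot_le inf_le_left
    rwa [AddSubgroup.relIndex_bot_left, AddSubgroup.relIndex_bot_left,
      AddSubgroup.inf_relIndex_left] at h
  have h2 : Nat.card H * H.relIndex P = Nat.card P := by
    have h := AddSubgroup.relIndex_mul_relIndex ⊥ H P bot_le hH
    rwa [AddSubgroup.relIndex_bot_left, AddSubgroup.relIndex_bot_left] at h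
  have h3 : H.relIndex P ≠ 0 := by
    intro h0
    rw [h0, mul_zero] at h2
    exact Nat.card_pos.ne h2
  have h4 : H.relIndex W ≤ H.relIndex P := AddSubgroup.relIndex_le_of_le_right hW h3
  calc Nat.card W * Nat.card H
      = Nat.card (W ⊓ H : AddSubgroup K[X]) * H.relIndex W * Nat.card H := by rw [h1]
    _ ≤ Nat.card (W ⊓ H : AddSubgroup K[X]) * H.relIndex P * Nat.card H :=
        Nat.mul_le_mul_right _ (Nat.mul_le_mul_left _ h4)
    _ = Nat.card (W ⊓ H : AddSubgroup K[X]) * (Nat.card H * H.relIndex P) := by ring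
    _ = _ := by rw [h2]

theorem aa_natDegree (hdeg : S_deg) {Q : ℕ} (hQ : 2 ≤ Q) {R i j : ℕ} (hi : i ≤ R) (hj : j ≤ R) :
    (aa K Q j i).natDegree ≤ Q ^ (2 * R) * R := by
  rcases lt_or_ge i j with h | h
  · rw [(hdeg K Q hQ i j).1 h, natDegree_zero]
    exact Nat.zero_le _
  · rw [((hdeg K Q hQ i j).2 h).2]
    exact Nat.mul_le_mul (Nat.pow_le_pow_right (by omega) (by omega)) hi

theorem aa_degree (hdeg : S_deg) {Q : ℕ} (hQ : 2 ≤ Q) {R i j e : ℕ} (hi : i ≤ R) (hj : j ≤ R)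
    (he : e ≤ Q ^ 2) :
    ((aa K Q j i) ^ e).degree < ((Q ^ (2 * R + 3) * (R + 1) + 1 : ℕ) : WithBot ℕ) := by
  refine lt_of_le_of_lt degree_le_natDegree ?_
  have h1 : ((aa K Q j i) ^ e).natDegree ≤ e * (aa K Q j i).natDegree := natDegree_pow_le
  have h2 := aa_natDegree (K := K) hdeg hQ hi hj
  have h3 : e * (aa K Q j i).natDegree ≤ Q ^ 2 * (Q ^ (2 * R) * R) := Nat.mul_le_mul he h2
  have h4 : Q ^ 2 * (Q ^ (2 * R) * R) ≤ Q ^ (2 * R + 3) * (R + 1) := by
    have h5 : Q ^ 2 * (Q ^ (2 * R) * R) = Q ^ (2 * R + 2) * R := by ring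
    rw [h5]
    exact Nat.mul_le_mul (Nat.pow_le_pow_right (by omega) (by omega)) (by omega)
  have h6 : ((aa K Q j i) ^ e).natDegree < Q ^ (2 * R + 3) * (R + 1) + 1 := by omega
  exact_mod_cast h6

end KeyAux

open KeyAux

theorem key : S_key := by
  intro hrank hsh hinc hdeg hstep hgrp Q R hR
  obtain ⟨M, hMdef⟩ : ∃ M : ℕ, M = Q ^ (2 * R + 3) * (R + 1) + 1 := ⟨_, rfl⟩
  have hM : 1 ≤ M := by omega
  refine ⟨M * R + 2 * M * (R - 1), ?_⟩
  intro K _ _ ψ hQ A B d hψ hB hTD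
  have hQ2 : 2 ≤ Q := PQ_pos hQ
  have hdegM : ∀ i j e : ℕ, i ≤ R → j ≤ R → e ≤ Q ^ 2 →
      ((aa K Q j i) ^ e).degree < (M : WithBot ℕ) := by
    intro i j e hi hj he
    rw [hMdef]
    exact aa_degree hdeg hQ2 hi hj he
  have hQQ : Q ≤ Q ^ 2 := by nlinarith
  -- finiteness
  have hB' : Fd (Bs hQ A B) := Fd_le (Bs_le hQ A B) hB
  have hSh1 : Fd (Sh M (Bs hQ A B)) := Fd_le (Sh_le hM _) hB'
  have hSh2 : Fd (Sh (2 * M) (Bs hQ A B)) := Fd_le (Sh_le (by omega) _) hB'
  have hTle : rk Q A (Sh (2 * M) (Bs hQ A B)) (Bs hQ A B) ≤ Bs hQ A B := fun _ hx => hx.1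
  have hTF : Fd (rk Q A (Sh (2 * M) (Bs hQ A B)) (Bs hQ A B)) := Fd_le hTle hB'
  have hZF : Fd (Zs hQ A B) := Fd_le (Zs_le hQ A B) hB
  have hZ'F : Fd (Zs hQ A (Bs hQ A B)) := Fd_le (Zs_le hQ A _) hB'
  -- the codimensions
  have hc1 : finrank K (Bs hQ A B) ≤ finrank K (Sh M (Bs hQ A B)) + M * d := by
    have h := hsh K d (M - 1) (Bs hQ A B) hB' hTD
    rw [Nat.sub_add_cancel hM] at h
    exact h.trans (Nat.add_le_add_left (Nat.mul_le_mul_right _ (Nat.sub_le _ _)) _)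
  have hc2 : finrank K (Bs hQ A B) ≤ finrank K (Sh (2 * M) (Bs hQ A B)) + 2 * M * d := by
    have h := hsh K d (2 * M - 1) (Bs hQ A B) hB' hTD
    rw [Nat.sub_add_cancel (by omega : 1 ≤ 2 * M)] at h
    exact h.trans (Nat.add_le_add_left (Nat.mul_le_mul_right _ (Nat.sub_le _ _)) _)
  have hT : finrank K (rk Q A (Sh (2 * M) (Bs hQ A B)) (Bs hQ A B)) ≤
      finrank K (Zs hQ A (Bs hQ A B)) + 2 * M * d := by
    have h1 := hrank K Q hQ A (Sh (2 * M) (Bs hQ A B)) (Bs hQ A B) hSh2 hB'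
    have h2 : finrank K (lk hQ A (Sh (2 * M) (Bs hQ A B)) (Bs hQ A B)) ≤
        finrank K (Zs hQ A (Bs hQ A B)) := by
      have := Fd_fin hZ'F
      refine Submodule.finrank_mono ?_
      intro x hx
      exact ⟨Sh_le (by omega) _ hx.1, hx.2⟩
    omega
  -- the group `G`
  have hWP : WG ψ hQ A B ≤ (Bs hQ A B).toAddSubgroup := fun x hx => hinc K ψ Q hQ A B hψ x hx
  have hHP : (Sh M (Bs hQ A B)).toAddSubgroup ≤ (Bs hQ A B).toAddSubgroup :=
    fun x hx => Sh_le hM _ hx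
  have hcard := card_inter (WG ψ hQ A B) (Sh M (Bs hQ A B)).toAddSubgroup
    (Bs hQ A B).toAddSubgroup hWP hHP (Fd_finite hB')
  have hcH : Nat.card (Sh M (Bs hQ A B)).toAddSubgroup =
      Fintype.card K ^ finrank K (Sh M (Bs hQ A B)) := Fd_card hSh1
  have hcP : Nat.card (Bs hQ A B).toAddSubgroup =
      Fintype.card K ^ finrank K (Bs hQ A B) := Fd_card hB'
  have hcT : Nat.card (rk Q A (Sh (2 * M) (Bs hQ A B)) (Bs hQ A B)).toAddSubgroup =
      Fintype.card K ^ finrank K (rk Q A (Sh (2 * M) (Bs hQ A B)) (Bs hQ A B)) := Fd_card hTF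
  have hcW : Nat.card (WG ψ hQ A B) = (WB ψ Q A B).ncard := rfl
  have hq : 0 < Fintype.card K := Fintype.card_pos
  have h1 : (WB ψ Q A B).ncard ≤
      Nat.card (WG ψ hQ A B ⊓ (Sh M (Bs hQ A B)).toAddSubgroup : AddSubgroup K[X]) *
        Fintype.card K ^ (M * d) := by
    rw [hcW, hcH, hcP] at hcard
    have h2 : Fintype.card K ^ finrank K (Bs hQ A B) ≤
        Fintype.card K ^ (M * d) * Fintype.card K ^ finrank K (Sh M (Bs hQ A B)) := by
      rw [← pow_add]
      exact Nat.pow_le_pow_right hq (by omega)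
    have h3 := hcard.trans (Nat.mul_le_mul_left _ h2)
    rw [← mul_assoc] at h3
    exact Nat.le_of_mul_le_mul_right h3 (pow_pos hq _)
  -- the counting lemma
  have h2 := hgrp K R (WG ψ hQ A B ⊓ (Sh M (Bs hQ A B)).toAddSubgroup) (Zs hQ A B).toAddSubgroup
    (rk Q A (Sh (2 * M) (Bs hQ A B)) (Bs hQ A B)).toAddSubgroup (Bs hQ A B).toAddSubgroup hR
    ((Fd_finite hSh1).subset fun x hx => hx.2) (Fd_finite hZF) (Fd_finite hTF) (Fd_finite hB')
    (fun x hx => ⟨Zs_le_Bs hQ A B hx, fun y hy => (Sh_le (by omega) _ hy).2 x hx⟩)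
    (fun x hx => Zs_le_Bs hQ A B hx)
    (fun j i => (aa K Q j i) ^ Q)
    (fun i j hij => by
      show (aa K Q j i) ^ Q = 0
      rw [(hdeg K Q hQ2 i j).1 hij, zero_pow (by omega)])
    (fun j => pow_ne_zero _ ((hdeg K Q hQ2 j j).2 le_rfl).1)
    (fun h hh => by
      refine Submodule.sum_mem (Bs hQ A B) fun i _ => ?_
      exact mul_mem (hh i).2 (hdegM _ _ _ (by have := i.isLt; omega) (by omega) hQQ))
    (fun h hh j hj hZ => by
      refine ⟨?_, ?_⟩
      · refine Submodule.sum_mem (Bs hQ A B) fun i _ => ?_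
        exact mul_mem (hh i).2 (hdegM _ _ _ (by have := i.isLt; omega) (by omega) hQQ)
      · intro y hy
        have h3 := hstep K ψ Q hQ A B M R h (fun i => aa K Q j i) ⟨j, by omega⟩ hψ
          (fun i => (hh i).1)
          (fun i => by
            have h4 := hdegM i j 1 (by have := i.isLt; omega) (by omega) (by nlinarith)
            rwa [pow_one] at h4)
          (hdegM j j (Q ^ 2 - 1) (by omega) (by omega) (by omega))
          (fun i => by
            have h4 := hdegM i (j + 1) 1 (by have := i.isLt; omega) (by omega) (by nlinarith)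
            rw [pow_one] at h4
            exact h4)
          hZ y hy
        exact h3)
  rw [hcP, hcT] at h2
  -- conclusion
  have h3 : Fintype.card K ^ finrank K (rk Q A (Sh (2 * M) (Bs hQ A B)) (Bs hQ A B)) ≤
      Fintype.card K ^ (finrank K (Zs hQ A (Bs hQ A B)) + 2 * M * d) :=
    Nat.pow_le_pow_right hq hT
  calc (WB ψ Q A B).ncard ^ R
      ≤ (Nat.card (WG ψ hQ A B ⊓ (Sh M (Bs hQ A B)).toAddSubgroup : AddSubgroup K[X]) *
        Fintype.card K ^ (M * d)) ^ R := Nat.pow_le_pow_left h1 R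
    _ = Nat.card (WG ψ hQ A B ⊓ (Sh M (Bs hQ A B)).toAddSubgroup : AddSubgroup K[X]) ^ R *
        Fintype.card K ^ (M * d * R) := by rw [mul_pow, ← pow_mul]
    _ ≤ (Fintype.card K ^ finrank K (Bs hQ A B) *
        (Fintype.card K ^ (finrank K (Zs hQ A (Bs hQ A B)) + 2 * M * d)) ^ (R - 1)) *
        Fintype.card K ^ (M * d * R) :=
        Nat.mul_le_mul_right _ (h2.trans (Nat.mul_le_mul_left _ (Nat.pow_le_pow_left h3 _)))
    _ = _ := by
        rw [← pow_mul, ← pow_add, ← pow_add]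
        refine congrArg (fun t => Fintype.card K ^ t) ?_
        ring

end

end Pool.Agent.H527.MW
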