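import Pool.Agent.H527.MW.Stm

/-!
# Project MW (helper527): monotonicity of the chain (helper187)

`mon1 : S_mon1`, `mon2 : S_mon2`, `seq : S_seq`.
-/

set_option autoImplicit false

namespace Pool.Agent.H527.MW

open Polynomial Module
open Pool.Agent.H527.WS (PQ)

noncomputable section

namespace MonAux

theorem fin_degLT (K : Type) [Field K] (m : ℕ) : Module.Finite K (degreeLT K m) :=
  Module.Finite.equiv (degreeLTEquiv K m).symm

theorem finrank_degLT (K : Type) [Field K] (m : ℕ) : finrank K (degreeLT K m) = m := by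
  rw [(degreeLTEquiv K m).finrank_eq, Module.finrank_fintype_fun_eq_card, Fintype.card_fin]

theorem fin_of_Fd {K : Type} [Field K] {B : Submodule K K[X]} (h : Fd B) : Module.Finite K B := by
  obtain ⟨m, hm⟩ := h
  have := fin_degLT K m
  exact Submodule.finiteDimensional_of_le hm

theorem mono {K : Type} [Field K] {B C : Submodule K K[X]} (h : Fd C) (hBC : B ≤ C) :
    finrank K B ≤ finrank K C := by
  have := fin_of_Fd h
  exact Submodule.finrank_mono hBC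

theorem Fd_le {K : Type} [Field K] {B C : Submodule K K[X]} (h : Fd C) (hBC : B ≤ C) : Fd B :=
  h.imp fun _ hm => hBC.trans hm

theorem lk_le {K : Type} [Field K] {Q : ℕ} (hQ : PQ K Q) (A : K[X] →ₗ[K] K) (B Y : Submodule K K[X]) :
    lk hQ A B Y ≤ B := fun _ hx => hx.1

theorem rk_le {K : Type} [Field K] (Q : ℕ) (A : K[X] →ₗ[K] K) (B Y : Submodule K K[X]) :
    rk Q A B Y ≤ Y := fun _ hx => hx.1

theorem Zs_le {K : Type} [Field K] {Q : ℕ} (hQ : PQ K Q) (A : K[X] →ₗ[K] K) (B : Submodule K K[X]) :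
    Zs hQ A B ≤ B := fun _ hx => hx.1

theorem Bs_le {K : Type} [Field K] {Q : ℕ} (hQ : PQ K Q) (A : K[X] →ₗ[K] K) (B : Submodule K K[X]) :
    Bs hQ A B ≤ B := fun _ hx => hx.1

theorem Zs_le_Bs {K : Type} [Field K] {Q : ℕ} (hQ : PQ K Q) (A : K[X] →ₗ[K] K) (B : Submodule K K[X]) :
    Zs hQ A B ≤ Bs hQ A B := fun _ hx => ⟨hx.1, fun y hy => hx.2 y hy.1⟩

theorem Bk_le {K : Type} [Field K] {Q : ℕ} (hQ : PQ K Q) (A : K[X] →ₗ[K] K) (n : ℕ) :
    ∀ k : ℕ, Bk hQ A n k ≤ degreeLT K n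
  | 0 => le_rfl
  | k + 1 => (Bs_le hQ A (Bk hQ A n k)).trans (Bk_le hQ A n k)

theorem Fd_Bk {K : Type} [Field K] {Q : ℕ} (hQ : PQ K Q) (A : K[X] →ₗ[K] K) (n k : ℕ) :
    Fd (Bk hQ A n k) := ⟨n, Bk_le hQ A n k⟩

/-- The numerical part. -/
theorem num (b z : ℕ → ℕ) (n : ℕ) (h0 : b 0 ≤ n)
    (h1 : ∀ k, z (k + 1) + b (k + 1) ≤ z k + b k)
    (h2 : ∀ k, b (k + 1) + z k ≤ b (k + 2) + z (k + 1)) (k : ℕ) :
    (k + 1) * b k ≤ k * b (k + 1) + n := by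
  induction k with
  | zero => simpa using h0
  | succ k ih =>
    have h3 : 2 * b (k + 1) ≤ b k + b (k + 2) := by
      have := h1 k
      have := h2 k
      omega
    have h4 : (k + 1) * (2 * b (k + 1)) ≤ (k + 1) * (b k + b (k + 2)) := Nat.mul_le_mul_left _ h3
    have e2 : k + 1 + 1 = k + 2 := rfl
    rw [e2]
    nlinarith

end MonAux

open MonAux

theorem mon1 : S_mon1 := by
  intro hr K _ _ Q hQ A B hB
  have hZ : Zs hQ A (Bs hQ A B) ≤ B := (Zs_le hQ A _).trans (Bs_le hQ A B)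
  have h := hr K Q hQ A (Zs hQ A (Bs hQ A B)) B (Fd_le hB hZ) hB
  have h1 : lk hQ A (Zs hQ A (Bs hQ A B)) B ≤ Zs hQ A B := fun x hx => ⟨hZ hx.1, hx.2⟩
  have h2 : Bs hQ A B ≤ rk Q A (Zs hQ A (Bs hQ A B)) B := fun y hy => ⟨hy.1, fun x hx => hx.2 y hy⟩
  have h3 := mono (Fd_le hB (Zs_le hQ A B)) h1
  have h4 := mono (Fd_le hB (rk_le Q A (Zs hQ A (Bs hQ A B)) B)) h2
  omega

theorem mon2 : S_mon2 := by
  intro hr K _ _ Q hQ A B hB
  have hB' : Fd (Bs hQ A B) := Fd_le hB (Bs_le hQ A B)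
  have hZ' : Fd (Zs hQ A (Bs hQ A B)) := Fd_le hB' (Zs_le hQ A _)
  have h := hr K Q hQ A (Bs hQ A B) (Zs hQ A (Bs hQ A B)) hB' hZ'
  have h1 : lk hQ A (Bs hQ A B) (Zs hQ A (Bs hQ A B)) = Bs hQ A (Bs hQ A B) := rfl
  have h2 : Zs hQ A B ≤ rk Q A (Bs hQ A B) (Zs hQ A (Bs hQ A B)) := fun z hz =>
    ⟨⟨Zs_le_Bs hQ A B hz, fun y hy => hz.2 y hy.1⟩, fun x hx => hx.2 z hz⟩
  have h3 := mono (Fd_le hZ' (rk_le Q A (Bs hQ A B) (Zs hQ A (Bs hQ A B)))) h2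
  rw [h1] at h
  omega

theorem seq : S_seq := by
  intro m1 m2 hr K _ _ Q hQ A n k
  have h := num (fun k => finrank K (Bk hQ A n k)) (fun k => finrank K (Zs hQ A (Bk hQ A n k))) n
    (le_of_eq (finrank_degLT K n)) (fun k => m1 hr K Q hQ A (Bk hQ A n k) (Fd_Bk hQ A n k))
    (fun k => m2 hr K Q hQ A (Bk hQ A n k) (Fd_Bk hQ A n k)) k
  have h' : (k + 1) * finrank K (Bk hQ A n k) ≤ k * finrank K (Bk hQ A n (k + 1)) + n := h
  refine h'.trans (Nat.add_le_add_right (Nat.mul_le_mul_right _ (Nat.le_succ k)) n)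

end

end Pool.Agent.H527.MW
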