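import Pool.Agent.H527.MW.Stm

/-!
# MW-NUM: the inequality for the dimensions (project MW of helper527; proof by helper102)
-/

set_option autoImplicit false

namespace Pool.Agent.H527.MW

open Polynomial Module
open Pool.Agent.H527.WS (V PQ S W Nonsing fn Near emb)

namespace NumAux

theorem Zs_le {K : Type} [Field K] {Q : ℕ} (hQ : PQ K Q) (A : K[X] →ₗ[K] K) (B : Submodule K K[X]) :
    Zs hQ A B ≤ B := fun _ hx => hx.1

theorem Bs_le {K : Type} [Field K] {Q : ℕ} (hQ : PQ K Q) (A : K[X] →ₗ[K] K) (B : Submodule K K[X]) :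
    Bs hQ A B ≤ B := fun _ hx => hx.1

theorem Bk_le {K : Type} [Field K] {Q : ℕ} (hQ : PQ K Q) (A : K[X] →ₗ[K] K) (n k : ℕ) :
    Bk hQ A n k ≤ degreeLT K n := by
  induction k with
  | zero => exact le_refl _
  | succ k ih => exact (Bs_le hQ A _).trans ih

theorem arith (k Q E c b b' z z' n d1 d2 : ℕ) (h1 : Q * z' + b' ≤ E + Q * d1) (h2 : Q * b' + z ≤ E + Q * d2)
    (h3 : z' + b' ≤ z + b) (h4 : (k + 1) * b ≤ (k + 1) * b' + n) (hc : c = Q * d1 + Q * d2) :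
    (k + 1) * ((Q + 1) * (z' + b)) ≤ (k + 1) * (2 * E + c) + (Q + 2) * n := by
  have h5 : (Q + 1) * z' + (Q + 2) * b' ≤ 2 * E + c + b := by
    have e1 : (Q + 1) * z' = Q * z' + z' := by ring
    have e2 : (Q + 2) * b' = Q * b' + b' + b' := by ring
    omega
  have h6 := Nat.mul_le_mul_left (k + 1) h5
  have h7 := Nat.mul_le_mul_left (Q + 2) h4
  have e3 : (k + 1) * ((Q + 1) * z' + (Q + 2) * b') =
      (k + 1) * ((Q + 1) * z') + (Q + 2) * ((k + 1) * b') := by ring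
  have e4 : (k + 1) * (2 * E + c + b) = (k + 1) * (2 * E + c) + (k + 1) * b := by ring
  have e5 : (Q + 2) * ((k + 1) * b' + n) = (Q + 2) * ((k + 1) * b') + (Q + 2) * n := by ring
  have e6 : (k + 1) * ((Q + 1) * (z' + b)) + (k + 1) * b =
      (k + 1) * ((Q + 1) * z') + (Q + 2) * ((k + 1) * b) := by ring
  rw [e3, e4] at h6
  rw [e5] at h7
  omega

end NumAux

open NumAux in
theorem num : S_num := by
  intro hrank hmon1 hseq hmon2 htdk hsh htdz htdb hslick hhank hspan Q k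
  refine ⟨Q * (Q ^ 2 + Q + 1) ^ (k + 1) + Q * ((Q + 1) * (Q ^ 2 + Q + 1) ^ k), ?_⟩
  intro K _ _ hQ A n D hA
  have hB := Bk_le hQ A n k
  have hB' := Bk_le hQ A n (k + 1)
  have h1 := hslick hhank hspan hsh K Q hQ A D n ((Q ^ 2 + Q + 1) ^ (k + 1)) (Zs hQ A (Bk hQ A n (k + 1)))
    (Bk hQ A n (k + 1)) hA ((Zs_le hQ A _).trans hB') hB' (htdk hrank hsh htdz htdb K Q hQ A n (k + 1)).1
    (fun x hx h hh => hx.2 h hh)
  have h2 := hslick hhank hspan hsh K Q hQ A D n ((Q + 1) * (Q ^ 2 + Q + 1) ^ k) (Bk hQ A n (k + 1))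
    (Zs hQ A (Bk hQ A n k)) hA hB' ((Zs_le hQ A _).trans hB) (htdk hrank hsh htdz htdb K Q hQ A n k).2
    (fun x hx h hh => hx.2 h hh)
  have h3 := hmon1 hrank K Q hQ A (Bk hQ A n k) ⟨n, hB⟩
  have h4 := hseq hmon1 hmon2 hrank K Q hQ A n k
  exact arith k Q (D + (Q * n - D) + (n - D)) _ _ _ _ _ n _ _ h1 h2 h3 h4 rfl

end Pool.Agent.H527.MW
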