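import Pool.Agent.H527.MW.Stm

/-!
# MW-RED: reduction of the radical (helper157, for helper527, MP_3b0be2_nt)
-/

set_option autoImplicit false

namespace Pool.Agent.H527.MW

open Polynomial Module
open scoped Classical
open Pool.Agent.H527.WS (V PQ S W Nonsing fn Near emb)

namespace RedAux

theorem fd {K : Type} [Field K] {B : Submodule K K[X]} (h : Fd B) : FiniteDimensional K B := by
  obtain ⟨m, hm⟩ := h
  have h1 : FiniteDimensional K (degreeLT K m) := Module.Finite.equiv (degreeLTEquiv K m).symm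
  exact Submodule.finiteDimensional_of_le hm

theorem fin_set {K : Type} [Field K] [Fintype K] {B : Submodule K K[X]} (h : Fd B) :
    (B : Set K[X]).Finite := by
  have h1 := fd h
  have h2 : Finite B := Module.finite_of_finite K
  exact Set.toFinite _

theorem ncard_sub {K : Type} [Field K] [Fintype K] {B : Submodule K K[X]} (h : Fd B) :
    (B : Set K[X]).ncard = Fintype.card K ^ finrank K B := by
  have h1 := fd h
  have h2 : Finite B := Module.finite_of_finite K
  have h3 : Nat.card B = Nat.card K ^ finrank K B := Module.natCard_eq_pow_finrank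
  rw [Nat.card_eq_fintype_card (α := K)] at h3
  rw [← h3]
  exact (Nat.card_coe_set_eq (B : Set K[X])).symm

theorem count {G : Type} [AddCommGroup G] (W Z P : AddSubgroup G) (hW : (W : Set G).Finite)
    (hZ : (Z : Set G).Finite) (hP : (P : Set G).Finite) (h1 : W ≤ P) (h2 : Z ≤ P) (T : Set G)
    (hT : T.Finite) (hWZ : ∀ g, g ∈ W → g ∈ Z → g ∈ T) :
    (W : Set G).ncard * (Z : Set G).ncard ≤ T.ncard * (P : Set G).ncard := by
  rw [Set.ncard_eq_toFinset_card _ hW, Set.ncard_eq_toFinset_card _ hZ,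
    Set.ncard_eq_toFinset_card _ hP, Set.ncard_eq_toFinset_card _ hT, ← Finset.card_product]
  refine (Finset.card_le_mul_card_image (f := fun x : G × G => x.1 + x.2) _ hT.toFinset.card
    ?_).trans (Nat.mul_le_mul_left _ (Finset.card_le_card ?_))
  · intro a ha
    rw [Finset.mem_image] at ha
    obtain ⟨⟨w, z⟩, hwz, rfl⟩ := ha
    rw [Finset.mem_product, Set.Finite.mem_toFinset, Set.Finite.mem_toFinset] at hwz
    obtain ⟨hw, hz⟩ := hwz
    refine Finset.card_le_card_of_injOn (fun x => x.1 - w) ?_ ?_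
    · intro x hx
      rw [Finset.mem_coe, Finset.mem_filter, Finset.mem_product, Set.Finite.mem_toFinset,
        Set.Finite.mem_toFinset] at hx
      obtain ⟨⟨hx1, hx2⟩, hx3⟩ := hx
      rw [Finset.mem_coe, Set.Finite.mem_toFinset]
      refine hWZ _ (W.sub_mem hx1 hw) ?_
      have e : x.1 - w = z - x.2 := by
        have : x.1 + x.2 = w + z := hx3
        rw [sub_eq_sub_iff_add_eq_add, this, add_comm]
      show x.1 - w ∈ Z
      rw [e]
      exact Z.sub_mem hz hx2
    · intro x hx y hy hxy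
      rw [Finset.mem_coe, Finset.mem_filter] at hx hy
      have e1 : x.1 = y.1 := sub_left_injective hxy
      have e2 : x.1 + x.2 = y.1 + y.2 := hx.2.trans hy.2.symm
      rw [e1] at e2
      exact Prod.ext e1 (add_left_cancel e2)
  · intro a ha
    rw [Finset.mem_image] at ha
    obtain ⟨x, hx, rfl⟩ := ha
    rw [Finset.mem_product, Set.Finite.mem_toFinset, Set.Finite.mem_toFinset] at hx
    rw [Set.Finite.mem_toFinset]
    exact P.add_mem (h1 hx.1) (h2 hx.2)

/-- The radical as a subgroup. -/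
def WBg {K : Type} [Field K] [Fintype K] (ψ : AddChar K ℂ) {Q : ℕ} (hQ : PQ K Q)
    (A : K[X] →ₗ[K] K) (B : Submodule K K[X]) : AddSubgroup K[X] where
  carrier := WB ψ Q A B
  add_mem' := by
    rintro a b ⟨ha, ha'⟩ ⟨hb, hb'⟩
    refine ⟨B.add_mem ha hb, fun x hx => ?_⟩
    have e : x ^ Q * (a + b) + x * (a + b) ^ Q =
        (x ^ Q * a + x * a ^ Q) + (x ^ Q * b + x * b ^ Q) := by
      rw [add_pow_PQ hQ]
      ring
    rw [e, map_add, AddChar.map_add_eq_mul, ha' x hx, hb' x hx, one_mul]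
  zero_mem' := by
    refine ⟨B.zero_mem, fun x _ => ?_⟩
    have := PQ_pos hQ
    rw [zero_pow (by omega), mul_zero, mul_zero, add_zero, map_zero, AddChar.map_zero_eq_one]
  neg_mem' := by
    rintro a ⟨ha, ha'⟩
    refine ⟨B.neg_mem ha, fun x hx => ?_⟩
    have h1 : a ^ Q + (-a) ^ Q = 0 := by
      rw [← add_pow_PQ hQ, add_neg_cancel]
      have := PQ_pos hQ
      exact zero_pow (by omega)
    have e : x ^ Q * (-a) + x * (-a) ^ Q + (x ^ Q * a + x * a ^ Q) = 0 := by
      linear_combination x * h1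
    have h2 : ψ (A (x ^ Q * (-a) + x * (-a) ^ Q)) * ψ (A (x ^ Q * a + x * a ^ Q)) = 1 := by
      rw [← AddChar.map_add_eq_mul, ← map_add, e, map_zero, AddChar.map_zero_eq_one]
    rwa [ha' x hx, mul_one] at h2

theorem surj {K : Type} [Field K] [Fintype K] {Q : ℕ} (hQ : PQ K Q) (b : K) : ∃ a : K, a ^ Q = b := by
  obtain ⟨p, j, hp, hK, hj, rfl⟩ := hQ
  have := Fact.mk hp
  have := hK
  have h1 : Function.Surjective (iterateFrobenius K p j) :=
    Finite.injective_iff_surjective.1 (iterateFrobenius K p j).injective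
  obtain ⟨a, ha⟩ := h1 b
  exact ⟨a, by rw [← ha, iterateFrobenius_def]⟩

theorem zero_of {K : Type} [Field K] [Fintype K] (ψ : AddChar K ℂ) {Q : ℕ} (hQ : PQ K Q)
    (hψ : ψ ≠ 1) {c : K} (h : ∀ a : K, ψ (a ^ Q * c) = 1) : c = 0 := by
  by_contra hc
  apply hψ
  ext b
  obtain ⟨a, ha⟩ := surj hQ (b / c)
  have h1 := h a
  rw [ha, div_mul_cancel₀ b hc] at h1
  rw [h1, AddChar.one_apply]

end RedAux

open RedAux in
/-- **MW-RED.** -/
theorem red : S_red := by
  intro hrank hinc K _ _ ψ Q hQ A B hψ hB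
  set Z := Zs hQ A B with hZ
  set B' := Bs hQ A B with hB'
  have hZB : Z ≤ B := fun z hz => hz.1
  have hB'B : B' ≤ B := fun z hz => hz.1
  have hFZ : Fd Z := hB.imp fun m hm => hZB.trans hm
  have hFB' : Fd B' := hB.imp fun m hm => hB'B.trans hm
  have hRZ : rk Q A B Z ≤ Z := fun y hy => hy.1
  have hFR : Fd (rk Q A B Z) := hFZ.imp fun m hm => hRZ.trans hm
  have hr : finrank K B + finrank K (rk Q A B Z) = finrank K Z + finrank K B' :=
    hrank K Q hQ A B Z hB hFZ
  have hWf : ((WBg ψ hQ A B : AddSubgroup K[X]) : Set K[X]).Finite :=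
    (fin_set hB).subset fun h hh => hh.1
  have hPf : ((WBg ψ hQ A B' : AddSubgroup K[X]) : Set K[X]).Finite :=
    (fin_set hFB').subset fun h hh => hh.1
  have h1 : WBg ψ hQ A B ≤ WBg ψ hQ A B' := by
    intro h hh
    exact ⟨hinc K ψ Q hQ A B hψ h hh, fun x hx => hh.2 x (hB'B hx)⟩
  have h2 : Z.toAddSubgroup ≤ WBg ψ hQ A B' := by
    intro z hz
    have hz' : z ∈ Z := hz
    refine ⟨⟨hz'.1, fun y hy => hz'.2 y (hZB hy)⟩, fun x hx => ?_⟩
    have e1 : A (x ^ Q * z) = 0 := hx.2 z hz'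
    have e2 : A (x * z ^ Q) = 0 := by
      rw [mul_comm]
      exact hz'.2 x (hB'B hx)
    rw [map_add, e1, e2, add_zero, AddChar.map_zero_eq_one]
  have h3 : ∀ g, g ∈ WBg ψ hQ A B → g ∈ Z.toAddSubgroup → g ∈ (rk Q A B Z : Set K[X]) := by
    intro g hg hgZ
    have hgZ' : g ∈ Z := hgZ
    refine ⟨hgZ', fun x hx => zero_of ψ hQ hψ fun a => ?_⟩
    have e1 : ψ (A ((a • x) ^ Q * g + (a • x) * g ^ Q)) = 1 := hg.2 (a • x) (B.smul_mem a hx)
    have e2 : A ((a • x) * g ^ Q) = 0 := by
      rw [mul_comm]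
      exact hgZ'.2 (a • x) (B.smul_mem a hx)
    rw [map_add, e2, add_zero, _root_.smul_pow, smul_mul_assoc, map_smul, smul_eq_mul] at e1
    exact e1
  have h4 := count (WBg ψ hQ A B) Z.toAddSubgroup (WBg ψ hQ A B') hWf (fin_set hFZ) hPf h1 h2
    (rk Q A B Z : Set K[X]) (fin_set hFR) h3
  have e1 : ((Z.toAddSubgroup : AddSubgroup K[X]) : Set K[X]).ncard =
      Fintype.card K ^ finrank K Z := ncard_sub hFZ
  rw [e1, ncard_sub hFR] at h4
  have h5 : (WB ψ Q A B).ncard * Fintype.card K ^ finrank K Z ≤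
      Fintype.card K ^ finrank K (rk Q A B Z) * (WB ψ Q A B').ncard := h4
  have hq : 0 < Fintype.card K ^ finrank K (rk Q A B Z) := pow_pos Fintype.card_pos _
  refine le_of_mul_le_mul_right ?_ hq
  calc (WB ψ Q A B).ncard * Fintype.card K ^ finrank K B *
        Fintype.card K ^ finrank K (rk Q A B Z)
      = (WB ψ Q A B).ncard * Fintype.card K ^ finrank K Z * Fintype.card K ^ finrank K B' := by
        rw [mul_assoc, ← pow_add, hr, pow_add, mul_assoc]
    _ ≤ Fintype.card K ^ finrank K (rk Q A B Z) * (WB ψ Q A B').ncard *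
          Fintype.card K ^ finrank K B' := Nat.mul_le_mul_right _ h5
    _ = (WB ψ Q A B').ncard * Fintype.card K ^ finrank K B' *
          Fintype.card K ^ finrank K (rk Q A B Z) := by ring

end Pool.Agent.H527.MW
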