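import Pool.Agent.H527.MW.Stm

/-!
# Project MW (helper527): the codimension of `{y : y, T y, …, T^M y ∈ B}` (helper728)
-/

set_option autoImplicit false

namespace Pool.Agent.H527.MW

open Polynomial Module

namespace ShcAux

variable {K : Type} [Field K]

theorem fd_degreeLT (m : ℕ) : FiniteDimensional K (degreeLT K m) :=
  Module.Finite.equiv (degreeLTEquiv K m).symm

theorem fd_of_Fd {B : Submodule K K[X]} (h : Fd B) : FiniteDimensional K B := by
  obtain ⟨m, hm⟩ := h
  have := fd_degreeLT (K := K) m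
  exact Submodule.finiteDimensional_of_le hm

theorem mem_Sh {M : ℕ} {B : Submodule K K[X]} {y : K[X]} :
    y ∈ Sh M B ↔ ∀ i < M, X ^ i * y ∈ B := Iff.rfl

theorem Sh_le {M : ℕ} {B : Submodule K K[X]} (hM : 0 < M) : Sh M B ≤ B := by
  intro y hy
  have h := hy 0 hM
  rwa [pow_zero, one_mul] at h

theorem Sh_one (B : Submodule K K[X]) : Sh 1 B = B := by
  refine le_antisymm (Sh_le one_pos) fun y hy => ?_
  rw [mem_Sh]
  intro i hi
  have h0 : i = 0 := by omega
  rw [h0, pow_zero, one_mul]
  exact hy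

/-- the general inequality -/
theorem codim {E F : Type} [AddCommGroup E] [Module K E] [AddCommGroup F] [Module K F]
    [FiniteDimensional K E] [FiniteDimensional K F] (f : E →ₗ[K] F) (G : Submodule K F) :
    finrank K E + finrank K G ≤ finrank K (G.comap f) + finrank K F := by
  have h1 := LinearMap.finrank_range_add_finrank_ker (G.mkQ.comp f)
  have h2 : LinearMap.ker (G.mkQ.comp f) = G.comap f := by
    rw [LinearMap.ker_comp, Submodule.ker_mkQ]
  have h3 : finrank K (LinearMap.range (G.mkQ.comp f)) ≤ finrank K (F ⧸ G) :=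
    Submodule.finrank_le _
  have h4 := Submodule.finrank_quotient_add_finrank G
  rw [h2] at h1
  omega

/-- the step -/
theorem step {B : Submodule K K[X]} (hB : FiniteDimensional K B) {d : ℕ} (hd : TD d B) (M : ℕ) :
    finrank K (Sh (M + 1) B) ≤ finrank K (Sh (M + 2) B) + d := by
  have hle : Sh (M + 1) B ≤ B := Sh_le (Nat.succ_pos M)
  have hfd : FiniteDimensional K (Sh (M + 1) B) := Submodule.finiteDimensional_of_le hle
  have hfd2 : FiniteDimensional K (Sh (M + 2) B) :=
    Submodule.finiteDimensional_of_le (Sh_le (Nat.succ_pos (M + 1)))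
  have h2 : Sh 2 B ≤ B := Sh_le two_pos
  obtain ⟨f, hf⟩ : ∃ f : Sh (M + 1) B →ₗ[K] B, ∀ y, ((f y : B) : K[X]) = X ^ M * (y : K[X]) := by
    refine ⟨LinearMap.codRestrict B
      ((LinearMap.mulLeft K (X ^ M : K[X])).comp (Sh (M + 1) B).subtype) ?_, fun y => ?_⟩
    · intro y
      exact y.2 M (Nat.lt_succ_self M)
    · rfl
  have h3 := codim f ((Sh 2 B).comap B.subtype)
  have h4 : finrank K ((Sh 2 B).comap B.subtype) = finrank K (Sh 2 B) :=
    (Submodule.comapSubtypeEquivOfLe h2).finrank_eq
  have h5 : finrank K (((Sh 2 B).comap B.subtype).comap f) ≤ finrank K (Sh (M + 2) B) := by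
    rw [← Submodule.finrank_map_subtype_eq (Sh (M + 1) B)]
    refine Submodule.finrank_mono ?_
    intro x hx
    rw [Submodule.mem_map] at hx
    obtain ⟨y, hy, rfl⟩ := hx
    rw [Submodule.mem_comap, Submodule.mem_comap] at hy
    have h6 : X ^ 1 * ((B.subtype (f y)) : K[X]) ∈ B := hy 1 one_lt_two
    rw [mem_Sh]
    intro i hi
    rcases Nat.lt_succ_iff_lt_or_eq.1 hi with h | h
    · exact y.2 i h
    · rw [h]
      have h7 : (B.subtype (f y) : K[X]) = X ^ M * (y : K[X]) := hf y
      rw [h7, ← mul_assoc, ← pow_add] at h6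
      have h8 : 1 + M = M + 1 := Nat.add_comm 1 M
      rw [h8] at h6
      exact h6
  unfold TD at hd
  omega

end ShcAux

theorem shc : S_sh := by
  intro K _ _ d M B hB hd
  have hfd := ShcAux.fd_of_Fd hB
  induction M with
  | zero =>
    rw [ShcAux.Sh_one]
    omega
  | succ M ih =>
    have h := ShcAux.step hfd hd M
    rw [Nat.succ_mul]
    show finrank K B ≤ finrank K (Sh (M + 2) B) + (M * d + d)
    omega

end Pool.Agent.H527.MW
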