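import Pool.Agent.H527.MW.Stm

/-! The inequality for two spaces with `N(B, H) = 0` (helper747). -/

set_option autoImplicit false

namespace Pool.Agent.H527.MW

open Polynomial Module
open Pool.Agent.H527.WS (V PQ S W Nonsing fn Near emb)

namespace SlkAux

theorem Sh_le {K : Type} [Field K] {M : ℕ} (hM : 0 < M) (B : Submodule K K[X]) : Sh M B ≤ B := by
  intro y hy
  have h := hy 0 hM
  rwa [pow_zero, one_mul] at h

theorem A_zero {K : Type} [Field K] {Q : ℕ} (A : K[X] →ₗ[K] K) (B H : Submodule K K[X])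
    (hN : ∀ x ∈ B, ∀ h ∈ H, A (x ^ Q * h) = 0) (x : Fin Q → K[X]) (hx : ∀ t, x t ∈ B) (y : K[X])
    (hy : y ∈ Sh Q H) : A ((∑ t : Fin Q, X ^ (t : ℕ) * (x t) ^ Q) * y) = 0 := by
  rw [Finset.sum_mul, map_sum]
  refine Finset.sum_eq_zero fun t _ => ?_
  have e : X ^ (t : ℕ) * (x t) ^ Q * y = (x t) ^ Q * (X ^ (t : ℕ) * y) := by ring
  rw [e]
  exact hN (x t) (hx t) _ (hy t t.2)

end SlkAux

theorem slk : S_slick := by
  intro hhank hspan hsh K _ _ Q hQ A D n d B H hA hB hH hT hN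
  have hQ2 := PQ_pos hQ
  obtain ⟨U, hU1, hU2, hU3⟩ := hspan K Q hQ n B hB
  have h1 := hhank K A D (Q * n) n U (Sh Q H) hA hU1
    ((SlkAux.Sh_le (by omega) H).trans hH) (by
      intro u hu y hy
      obtain ⟨x, hx, rfl⟩ := hU3 u hu
      exact SlkAux.A_zero A B H hN x hx y hy)
  have h2 := hsh K d (Q - 1) H ⟨n, hH⟩ hT
  have e : Q - 1 + 1 = Q := by omega
  rw [e] at h2
  have h3 : (Q - 1) * d ≤ Q * d := Nat.mul_le_mul_right d (by omega)
  rw [hU2] at h1
  omega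

end Pool.Agent.H527.MW
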