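import Pool.Agent.H527.MW.Stm
import Pool.Agent.H527.WS.Ind

/-!
# The space of the sums `∑_{t < Q} T^t x_t^Q` (helper400, for helper527, MP_3b0be2_nt)
-/

set_option autoImplicit false

namespace Pool.Agent.H527.MW

open Polynomial Module
open scoped Classical
open Pool.Agent.H527.WS (V PQ S W Nonsing fn Near emb)

noncomputable section

namespace SpnAux

/-- the sum `∑_{t < Q} T^t x_t^Q` -/
def psi {K : Type} [Field K] (Q : ℕ) (x : Fin Q → K[X]) : K[X] :=
  ∑ t : Fin Q, X ^ (t : ℕ) * (x t) ^ Q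

theorem psi_add {K : Type} [Field K] {Q : ℕ} (hQ : PQ K Q) (x y : Fin Q → K[X]) :
    psi Q (fun t => x t + y t) = psi Q x + psi Q y := by
  unfold psi
  rw [← Finset.sum_add_distrib]
  refine Finset.sum_congr rfl fun t _ => ?_
  rw [add_pow_PQ hQ, mul_add]

theorem exists_root {K : Type} [Field K] [Fintype K] {Q : ℕ} (hQ : PQ K Q) (c : K) :
    ∃ c' : K, c' ^ Q = c := by
  obtain ⟨p, j, hp, hK, hj, rfl⟩ := hQ
  have := Fact.mk hp
  have := hK
  obtain ⟨c', hc'⟩ := (bijective_iterateFrobenius K p j).2 c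
  exact ⟨c', by rw [← hc', iterateFrobenius_def]⟩

theorem psi_smul {K : Type} [Field K] {Q : ℕ} (c : K) (x : Fin Q → K[X]) :
    psi Q (fun t => c • x t) = c ^ Q • psi Q x := by
  unfold psi
  rw [Finset.smul_sum]
  refine Finset.sum_congr rfl fun t _ => ?_
  rw [_root_.smul_pow, mul_smul_comm]

theorem psi_inj {K : Type} [Field K] {Q : ℕ} (hQ : PQ K Q) (x y : Fin Q → K[X])
    (h : psi Q x = psi Q y) : x = y := by
  obtain ⟨p, j, hp, hK, hj, rfl⟩ := hQ
  have := Fact.mk hp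
  have := hK
  have h0 : ∑ t : Fin (p ^ j), X ^ (t : ℕ) * (x t - y t) ^ (p ^ j) = (0 : K[X]) := by
    have h1 : ∀ t : Fin (p ^ j), X ^ (t : ℕ) * (x t - y t) ^ (p ^ j) =
        X ^ (t : ℕ) * (x t) ^ (p ^ j) - X ^ (t : ℕ) * (y t) ^ (p ^ j) := by
      intro t
      rw [sub_pow_char_pow, mul_sub]
    rw [Finset.sum_congr rfl fun t _ => h1 t, Finset.sum_sub_distrib]
    exact sub_eq_zero.2 h
  funext t
  exact sub_eq_zero.1 (Pool.Agent.H527.WS.IndAux.lemA p j (fun t => x t - y t) h0 t)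

theorem psi_deg {K : Type} [Field K] {Q : ℕ} (n : ℕ) (x : Fin Q → K[X])
    (hx : ∀ t, x t ∈ degreeLT K n) : psi Q x ∈ degreeLT K (Q * n) := by
  unfold psi
  refine Submodule.sum_mem _ fun t _ => ?_
  have hQ : 0 < Q := lt_of_le_of_lt (Nat.zero_le _) t.isLt
  have h1 := mem_degreeLT.1 (hx t)
  rw [mem_degreeLT]
  rw [Pool.Agent.H527.WS.IndAux.deg_lt_iff] at h1 ⊢
  rcases h1 with h1 | h1
  · left
    rw [h1, zero_pow hQ.ne', mul_zero]
  · right
    refine lt_of_le_of_lt natDegree_mul_le ?_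
    rw [natDegree_X_pow]
    have h2 : ((x t) ^ Q).natDegree ≤ Q * (x t).natDegree := natDegree_pow_le
    have h3 : Q * (x t).natDegree + Q ≤ Q * n := by
      have := Nat.mul_le_mul_left Q (show (x t).natDegree + 1 ≤ n from h1)
      rw [Nat.mul_add, Nat.mul_one] at this
      exact this
    have h4 := t.isLt
    omega

/-- the space of the sums -/
def sp {K : Type} [Field K] [Fintype K] {Q : ℕ} (hQ : PQ K Q) (B : Submodule K K[X]) :
    Submodule K K[X] where
  carrier := {u | ∃ x : Fin Q → K[X], (∀ t, x t ∈ B) ∧ u = psi Q x}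
  add_mem' := by
    rintro a b ⟨x, hx, rfl⟩ ⟨y, hy, rfl⟩
    exact ⟨fun t => x t + y t, fun t => B.add_mem (hx t) (hy t), (psi_add hQ x y).symm⟩
  zero_mem' := by
    refine ⟨fun _ => 0, fun _ => B.zero_mem, ?_⟩
    have h := PQ_pos hQ
    unfold psi
    rw [Finset.sum_eq_zero]
    intro t _
    rw [zero_pow (by omega), mul_zero]
  smul_mem' := by
    rintro c a ⟨x, hx, rfl⟩
    obtain ⟨c', hc'⟩ := exists_root hQ c
    refine ⟨fun t => c' • x t, fun t => B.smul_mem c' (hx t), ?_⟩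
    rw [psi_smul, hc']

theorem mem_sp {K : Type} [Field K] [Fintype K] {Q : ℕ} (hQ : PQ K Q) (B : Submodule K K[X])
    (u : K[X]) : u ∈ sp hQ B ↔ ∃ x : Fin Q → K[X], (∀ t, x t ∈ B) ∧ u = psi Q x := Iff.rfl

theorem fin_of_le {K : Type} [Field K] {n : ℕ} {B : Submodule K K[X]} (h : B ≤ degreeLT K n) :
    Module.Finite K B := by
  have h1 : Module.Finite K (degreeLT K n) :=
    Module.Finite.equiv (degreeLTEquiv K n).symm
  exact Submodule.finiteDimensional_of_le h

end SpnAux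

theorem spn : S_span := by
  intro K _ _ Q hQ n B hB
  have hU : SpnAux.sp hQ B ≤ degreeLT K (Q * n) := by
    intro u hu
    obtain ⟨x, hx, rfl⟩ := (SpnAux.mem_sp hQ B u).1 hu
    exact SpnAux.psi_deg n x fun t => hB (hx t)
  refine ⟨SpnAux.sp hQ B, hU, ?_, fun u hu => (SpnAux.mem_sp hQ B u).1 hu⟩
  have f1 : Module.Finite K B := SpnAux.fin_of_le hB
  have f2 : Module.Finite K (SpnAux.sp hQ B) := SpnAux.fin_of_le hU
  have e : Nat.card (Fin Q → B) = Nat.card (SpnAux.sp hQ B) := by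
    refine Nat.card_eq_of_bijective (fun x : Fin Q → B =>
      (⟨SpnAux.psi Q (fun t => (x t : K[X])), fun t => (x t : K[X]), fun t => (x t).2, rfl⟩ :
        SpnAux.sp hQ B)) ⟨?_, ?_⟩
    · intro x y hxy
      have h1 : SpnAux.psi Q (fun t => (x t : K[X])) = SpnAux.psi Q (fun t => (y t : K[X])) :=
        Subtype.ext_iff.1 hxy
      have h2 := SpnAux.psi_inj hQ _ _ h1
      funext t
      exact Subtype.ext (congrFun h2 t)
    · rintro ⟨u, x, hx, rfl⟩
      exact ⟨fun t => ⟨x t, hx t⟩, rfl⟩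
  rw [Nat.card_fun, Nat.card_eq_fintype_card (α := Fin Q), Fintype.card_fin,
    Module.natCard_eq_pow_finrank (K := K) (V := B),
    Module.natCard_eq_pow_finrank (K := K) (V := SpnAux.sp hQ B), ← pow_mul] at e
  have hq : 1 < Nat.card K := by
    rw [Nat.card_eq_fintype_card]
    exact Fintype.one_lt_card
  rw [mul_comm]
  exact (Nat.pow_right_injective hq e).symm

end

end Pool.Agent.H527.MW
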