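import Pool.Agent.H527.MW.Stm

/-!
# The elimination step (project MW)
-/

set_option autoImplicit false

namespace Pool.Agent.H527.MW

open Polynomial Module
open scoped Classical
open Pool.Agent.H527.WS (V PQ S W Nonsing fn Near emb)

namespace StpAux

variable {K : Type} [Field K]

theorem psi_zero {ψ : AddChar K ℂ} (hψ : ψ ≠ 1) {s : K} (h : ∀ t : K, ψ (t * s) = 1) : s = 0 := by
  by_contra hs
  apply hψ
  ext x
  have h1 := h (x * s⁻¹)
  rw [inv_mul_cancel_right₀ hs] at h1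
  rw [h1]
  rfl

theorem psi_sum {ψ : AddChar K ℂ} {ι : Type} (s : Finset ι) (f : ι → K)
    (h : ∀ i ∈ s, ψ (f i) = 1) : ψ (∑ i ∈ s, f i) = 1 := by
  induction s using Finset.induction_on with
  | empty => rw [Finset.sum_empty, AddChar.map_zero_eq_one]
  | insert a s ha ih =>
    rw [Finset.sum_insert ha, AddChar.map_add_eq_mul, h a (Finset.mem_insert_self a s),
      ih fun i hi => h i (Finset.mem_insert_of_mem hi), one_mul]

theorem pow_surj [Fintype K] {Q : ℕ} (hQ : PQ K Q) : Function.Surjective (fun t : K => t ^ Q) := by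
  obtain ⟨p, j, hp, hK, hj, rfl⟩ := hQ
  have := Fact.mk hp
  have := hK
  apply Finite.injective_iff_surjective.1
  intro x y hxy
  simp only at hxy
  have h1 : (x - y) ^ (p ^ j) = 0 := by
    rw [sub_pow_char_pow, hxy, sub_self]
  exact sub_eq_zero.1 (pow_eq_zero_iff (pow_ne_zero j hp.ne_zero) |>.1 h1)

theorem sum_pow_PQ {Q : ℕ} (hQ : PQ K Q) {ι : Type} (s : Finset ι) (f : ι → K[X]) :
    (∑ i ∈ s, f i) ^ Q = ∑ i ∈ s, f i ^ Q := by
  induction s using Finset.induction_on with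
  | empty =>
    have := PQ_pos hQ
    rw [Finset.sum_empty, Finset.sum_empty, zero_pow (by omega)]
  | insert a s ha ih => rw [Finset.sum_insert ha, Finset.sum_insert ha, add_pow_PQ hQ, ih]

/-- multiplication by a polynomial of degree less than `M` -/
theorem mul_mem {M : ℕ} {C : Submodule K K[X]} {b y : K[X]} (hb : b.degree < (M : WithBot ℕ))
    (hy : y ∈ Sh M C) : b * y ∈ C := by
  rcases Nat.eq_zero_or_pos M with rfl | hM
  · have h0 : b = 0 := by
      rw [← Polynomial.degree_eq_bot]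
      exact WithBot.lt_coe_bot.1 hb
    rw [h0, zero_mul]
    exact C.zero_mem
  · have hd : b.natDegree < M := by
      by_cases h0 : b = 0
      · rw [h0, natDegree_zero]
        exact hM
      · exact (Polynomial.natDegree_lt_iff_degree_lt h0).2 hb
    have e : b * y = ∑ k ∈ Finset.range M, b.coeff k • (X ^ k * y) := by
      conv_lhs => rw [b.as_sum_range' M hd]
      rw [Finset.sum_mul]
      refine Finset.sum_congr rfl fun k _ => ?_
      rw [← C_mul_X_pow_eq_monomial, mul_assoc, smul_eq_C_mul]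
    rw [e]
    refine C.sum_mem fun k hk => C.smul_mem _ (hy k (Finset.mem_range.1 hk))

theorem mul_mem2 {M : ℕ} {C : Submodule K K[X]} {b y : K[X]} (hb : b.degree < (M : WithBot ℕ))
    (hy : y ∈ Sh (2 * M) C) : b * y ∈ Sh M C := by
  intro i hi
  have e : X ^ i * (b * y) = b * (X ^ i * y) := by ring
  rw [e]
  refine mul_mem hb fun k hk => ?_
  have e2 : X ^ k * (X ^ i * y) = X ^ (k + i) * y := by ring
  rw [e2]
  exact hy (k + i) (by omega)

end StpAux

open StpAux

theorem stp : S_step := by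
  intro K _ _ ψ Q hQ A B M R h a j hψ hh ha haj hc hu y hy
  set c : Fin R → K[X] := fun i => (a j) ^ (Q ^ 2 - 1) * a i - (a i) ^ (Q ^ 2) with hcdef
  change A (y ^ Q * ∑ i, (c i) ^ Q * h i) = 0
  have hc' : ∀ i, (c i).degree < (M : WithBot ℕ) := hc
  have hQ2 := PQ_pos hQ
  rcases Nat.eq_zero_or_pos M with hM0 | hM
  · have h0 : ∀ i, c i = 0 := by
      intro i
      have := hc' i
      rw [hM0] at this
      rw [← Polynomial.degree_eq_bot]
      exact WithBot.lt_coe_bot.1 this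
    have e : ∑ i, (c i) ^ Q * h i = 0 := by
      refine Finset.sum_eq_zero fun i _ => ?_
      rw [h0 i, zero_pow (by omega), zero_mul]
    rw [e, mul_zero, map_zero]
  -- (b)
  have key : ∀ e : Fin R → K[X], (∀ i, (e i).degree < (M : WithBot ℕ)) → ∀ z ∈ Sh M (Bs hQ A B),
      ψ (A (z ^ Q * ∑ i, (e i) ^ Q * h i) + A (z * ∑ i, e i * (h i) ^ Q)) = 1 := by
    intro e he z hz
    have h1 : ∀ i, ψ (A ((e i * z) ^ Q * h i + (e i * z) * (h i) ^ Q)) = 1 := by
      intro i
      have h2 : e i * z ∈ Bs hQ A B := mul_mem (he i) hz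
      exact (hh i).2 _ h2.1
    have h2 : A (z ^ Q * ∑ i, (e i) ^ Q * h i) + A (z * ∑ i, e i * (h i) ^ Q) =
        ∑ i, A ((e i * z) ^ Q * h i + (e i * z) * (h i) ^ Q) := by
      rw [← map_add, ← map_sum]
      congr 1
      rw [Finset.mul_sum, Finset.mul_sum, ← Finset.sum_add_distrib]
      refine Finset.sum_congr rfl fun i _ => ?_
      rw [mul_pow]
      ring
    rw [h2]
    exact psi_sum Finset.univ _ fun i _ => h1 i
  have hmem0 : ∀ z ∈ Sh M (Bs hQ A B), z ∈ Bs hQ A B := by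
    intro z hz
    have := hz 0 hM
    rwa [pow_zero, one_mul] at this
  -- (c)
  have hcc : ∀ z ∈ Sh M (Bs hQ A B), A (z * ∑ i, a i * (h i) ^ Q) = 0 := by
    intro z hz
    apply psi_zero hψ
    intro t
    have hz' : t • z ∈ Sh M (Bs hQ A B) := (Sh M (Bs hQ A B)).smul_mem t hz
    have h1 := key a ha (t • z) hz'
    have h2 : A ((t • z) ^ Q * ∑ i, (a i) ^ Q * h i) = 0 := (hmem0 _ hz').2 _ hu
    rw [h2, zero_add, smul_mul_assoc, map_smul, smul_eq_mul] at h1
    exact h1
  -- (d)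
  have hd : ∀ z ∈ B, A (z * ∑ i, (a i) ^ (Q ^ 2) * (h i) ^ Q) = 0 := by
    intro z hz
    have h1 := hu.2 z hz
    have h2 : (∑ i, (a i) ^ Q * h i) ^ Q = ∑ i, (a i) ^ (Q ^ 2) * (h i) ^ Q := by
      rw [sum_pow_PQ hQ]
      refine Finset.sum_congr rfl fun i _ => ?_
      rw [mul_pow, ← pow_mul, sq]
    rw [h2, mul_comm] at h1
    exact h1
  -- (e)
  have hsub : ∀ z ∈ Sh (2 * M) (Bs hQ A B), z ∈ Sh M (Bs hQ A B) :=
    fun z hz i hi => hz i (by omega)
  have hee : ∀ z ∈ Sh (2 * M) (Bs hQ A B), A (z * ∑ i, c i * (h i) ^ Q) = 0 := by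
    intro z hz
    have h1 := hcc _ (mul_mem2 haj hz)
    have h2 := hd z (hmem0 _ (hsub z hz)).1
    have h3 : z * ∑ i, c i * (h i) ^ Q = (a j) ^ (Q ^ 2 - 1) * z * ∑ i, a i * (h i) ^ Q -
        z * ∑ i, (a i) ^ (Q ^ 2) * (h i) ^ Q := by
      rw [Finset.mul_sum, Finset.mul_sum, Finset.mul_sum, ← Finset.sum_sub_distrib]
      refine Finset.sum_congr rfl fun i _ => ?_
      simp only [hcdef]
      ring
    rw [h3, map_sub, h1, h2, sub_zero]
  -- (f)
  apply psi_zero hψ
  intro t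
  obtain ⟨τ, hτ⟩ := pow_surj hQ t
  simp only at hτ
  have hy' : τ • y ∈ Sh (2 * M) (Bs hQ A B) := (Sh (2 * M) (Bs hQ A B)).smul_mem τ hy
  have h1 := key c hc' (τ • y) (hsub _ hy')
  rw [hee _ hy', add_zero, _root_.smul_pow, smul_mul_assoc, map_smul, smul_eq_mul, hτ] at h1
  exact h1

end Pool.Agent.H527.MW
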