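import Pool.Agent.H527.MW.Stm

/-!
# The space `Bs B` is almost closed under multiplication by `T` (helper746, for helper527)
-/

set_option autoImplicit false

namespace Pool.Agent.H527.MW

open Polynomial Module
open scoped Classical
open Pool.Agent.H527.WS (V PQ S W Nonsing fn Near emb)

noncomputable section

namespace TdbAux

variable {K : Type} [Field K]

/-- multiplication by `T` -/
def mX : K[X] →ₗ[K] K[X] := LinearMap.mulLeft K X

theorem mX_apply (y : K[X]) : mX y = X * y := rfl

theorem mX_inj : Function.Injective (mX (K := K)) := by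
  intro a b h
  rw [mX_apply, mX_apply] at h
  exact mul_left_cancel₀ X_ne_zero h

theorem fin_of_le {m : ℕ} {B : Submodule K K[X]} (h : B ≤ degreeLT K m) : FiniteDimensional K B := by
  have h0 : FiniteDimensional K (degreeLT K m) :=
    (degreeLTEquiv K m).symm.finiteDimensional
  exact Submodule.finiteDimensional_of_le h

theorem Fd_fin {B : Submodule K K[X]} (h : Fd B) : FiniteDimensional K B := by
  obtain ⟨m, hm⟩ := h
  exact fin_of_le hm

theorem Fd_le {B C : Submodule K K[X]} (h : Fd B) (hC : C ≤ B) : Fd C := by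
  obtain ⟨m, hm⟩ := h
  exact ⟨m, hC.trans hm⟩

theorem lk_le {Q : ℕ} (hQ : PQ K Q) (A : K[X] →ₗ[K] K) (B Y : Submodule K K[X]) :
    lk hQ A B Y ≤ B := fun _ hx => hx.1

theorem rk_le (Q : ℕ) (A : K[X] →ₗ[K] K) (B Y : Submodule K K[X]) : rk Q A B Y ≤ Y :=
  fun _ hx => hx.1

theorem Sh_le {M : ℕ} (hM : 0 < M) (B : Submodule K K[X]) : Sh M B ≤ B := by
  intro y hy
  have h := hy 0 hM
  rwa [pow_zero, one_mul] at h

theorem finrank_map_mX (B : Submodule K K[X]) : finrank K (B.map mX) = finrank K B :=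
  (Submodule.equivMapOfInjective mX mX_inj B).finrank_eq.symm

end TdbAux

open TdbAux in
theorem tdb : S_tdb := by
  intro hrank hsh K _ _ Q hQ A d d' B hB hd hd'
  set Z := Zs hQ A B with hZ
  set B' := Bs hQ A B with hB'
  have hB'B : B' ≤ B := lk_le hQ A B _
  have hZB : Z ≤ B := lk_le hQ A B _
  set B1 := B' ⊓ Sh 2 B with hB1
  have iB := Fd_fin hB
  have iB' := Fd_fin (Fd_le hB hB'B)
  have iS := Fd_fin (Fd_le hB (Sh_le (by norm_num : 0 < 2) B))
  have iS' := Fd_fin (Fd_le hB ((Sh_le (by norm_num : 0 < 2) B').trans hB'B))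
  -- first step
  have e1 : finrank K B' ≤ finrank K B1 + d := by
    have h1 := Submodule.finrank_sup_add_finrank_inf_eq B' (Sh 2 B)
    have h2 : finrank K (B' ⊔ Sh 2 B : Submodule K K[X]) ≤ finrank K B :=
      Submodule.finrank_mono (sup_le hB'B (Sh_le (by norm_num) B))
    have h3 : finrank K B ≤ finrank K (Sh 2 B) + d := hd
    have h4 : finrank K (B' ⊓ Sh 2 B : Submodule K K[X]) = finrank K B1 := rfl
    omega
  set TB := B1.map mX with hTB
  have hTBB : TB ≤ B := by
    rintro _ ⟨y, hy, rfl⟩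
    have h := hy.2 1 (by norm_num)
    rw [pow_one] at h
    exact h
  have e2 := hrank K Q hQ A TB Z (Fd_le hB hTBB) (Fd_le hB hZB)
  rw [hTB, finrank_map_mX, ← hTB] at e2
  have e3 : finrank K (Sh (Q + 1) Z) ≤ finrank K (rk Q A TB Z) := by
    have := Fd_fin (Fd_le hB ((rk_le Q A TB Z).trans hZB))
    refine Submodule.finrank_mono ?_
    intro z hz
    refine ⟨Sh_le (Nat.succ_pos Q) Z hz, ?_⟩
    rintro _ ⟨y, hy, rfl⟩
    rw [mX_apply, mul_pow]
    have h1 : X ^ Q * y ^ Q * z = y ^ Q * (X ^ Q * z) := by ring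
    rw [h1]
    exact hy.1.2 _ (hz Q (Nat.lt_succ_self Q))
  have e4 := hsh K d' Q Z (Fd_le hB hZB) hd'
  have e5 : finrank K (lk hQ A TB Z) ≤ finrank K (Sh 2 B') := by
    rw [← finrank_map_mX (Sh 2 B')]
    have : FiniteDimensional K ((Sh 2 B').map mX) := inferInstance
    refine Submodule.finrank_mono ?_
    rintro x ⟨⟨y, hy, rfl⟩, hx⟩
    refine ⟨y, ?_, rfl⟩
    intro i hi
    have h1 : X * y ∈ B' := by
      refine ⟨?_, hx⟩
      have h := hy.2 1 (by norm_num)
      rw [pow_one] at h
      exact h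
    interval_cases i
    · rw [pow_zero, one_mul]
      exact hy.1
    · rw [pow_one]
      exact h1
  show finrank K B' ≤ finrank K (Sh 2 B') + (d + Q * d')
  omega

end

end Pool.Agent.H527.MW
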