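import Pool.Agent.H527.MW.Stm

/-!
# MW-TDK: the chain is almost closed under multiplication by `T`
-/

set_option autoImplicit false

namespace Pool.Agent.H527.MW

open Polynomial Module
open Pool.Agent.H527.WS (PQ)

namespace TdkAux

theorem finrank_degreeLT (K : Type) [Field K] (n : ℕ) : finrank K (degreeLT K n) = n := by
  rw [(degreeLTEquiv K n).finrank_eq, finrank_fin_fun]

theorem fin_degreeLT (K : Type) [Field K] (n : ℕ) : FiniteDimensional K (degreeLT K n) :=
  LinearEquiv.finiteDimensional (degreeLTEquiv K n).symm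

theorem Sh_le {K : Type} [Field K] {M : ℕ} (hM : 1 ≤ M) (B : Submodule K K[X]) : Sh M B ≤ B := by
  intro y hy
  have h := hy 0 hM
  rwa [pow_zero, one_mul] at h

theorem Bs_le {K : Type} [Field K] {Q : ℕ} (hQ : PQ K Q) (A : K[X] →ₗ[K] K)
    (B : Submodule K K[X]) : Bs hQ A B ≤ B := fun _ hx => hx.1

theorem Bk_le {K : Type} [Field K] {Q : ℕ} (hQ : PQ K Q) (A : K[X] →ₗ[K] K) (n k : ℕ) :
    Bk hQ A n k ≤ degreeLT K n := by
  induction k with
  | zero => exact le_rfl
  | succ k ih => exact (Bs_le hQ A _).trans ih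

theorem sub_Sh (K : Type) [Field K] (n : ℕ) : degreeLT K (n - 1) ≤ Sh 2 (degreeLT K n) := by
  intro y hy i hi
  rw [mem_degreeLT] at hy ⊢
  by_cases h0 : y = 0
  · rw [h0, mul_zero, degree_zero]
    exact WithBot.bot_lt_coe n
  · have h1 : y.natDegree < n - 1 := by
      rw [degree_eq_natDegree h0] at hy
      exact_mod_cast hy
    have hX : (X ^ i * y : K[X]) ≠ 0 := mul_ne_zero (pow_ne_zero _ X_ne_zero) h0
    rw [degree_eq_natDegree hX, natDegree_mul (pow_ne_zero _ X_ne_zero) h0, natDegree_X_pow]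
    exact_mod_cast (by omega : i + y.natDegree < n)

theorem td_zero (K : Type) [Field K] (n : ℕ) : TD 1 (degreeLT K n) := by
  unfold TD
  have := fin_degreeLT K n
  have : FiniteDimensional K (Sh 2 (degreeLT K n)) :=
    Submodule.finiteDimensional_of_le (Sh_le one_le_two _)
  have h := Submodule.finrank_mono (sub_Sh K n)
  rw [finrank_degreeLT] at h
  rw [finrank_degreeLT]
  omega

end TdkAux

open TdkAux in
theorem tdk : S_tdk := by
  intro hrank hsh htdz htdb K _ _ Q hQ A n k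
  have hz : ∀ (d : ℕ) (B : Submodule K K[X]), Fd B → TD d B → TD ((Q + 1) * d) (Zs hQ A B) :=
    fun d B => htdz hrank hsh K Q hQ A d B
  have hb : ∀ (d d' : ℕ) (B : Submodule K K[X]), Fd B → TD d B → TD d' (Zs hQ A B) →
      TD (d + Q * d') (Bs hQ A B) := fun d d' B => htdb hrank hsh K Q hQ A d d' B
  induction k with
  | zero =>
    have h1 : TD 1 (Bk hQ A n 0) := td_zero K n
    rw [pow_zero]
    exact ⟨h1, hz 1 _ ⟨n, Bk_le hQ A n 0⟩ h1⟩
  | succ k ih =>
    have h2 : TD ((Q ^ 2 + Q + 1) ^ (k + 1)) (Bk hQ A n (k + 1)) := by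
      have h3 := hb _ _ (Bk hQ A n k) ⟨n, Bk_le hQ A n k⟩ ih.1 ih.2
      have e : (Q ^ 2 + Q + 1) ^ k + Q * ((Q + 1) * (Q ^ 2 + Q + 1) ^ k) =
          (Q ^ 2 + Q + 1) ^ (k + 1) := by ring
      rw [e] at h3
      exact h3
    exact ⟨h2, hz _ _ ⟨n, Bk_le hQ A n (k + 1)⟩ h2⟩

end Pool.Agent.H527.MW
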