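import Pool.Agent.H527.MW.Stm

/-!
# MW-TDZ (helper264 for helper527)
-/

set_option autoImplicit false

namespace Pool.Agent.H527.MW

open Polynomial Module
open Pool.Agent.H527.WS (V PQ S W Nonsing fn Near emb)

namespace TdzAux

theorem fd_finite {K : Type} [Field K] {B : Submodule K K[X]} (h : Fd B) : FiniteDimensional K B := by
  obtain ⟨m, hm⟩ := h
  have h1 : FiniteDimensional K (degreeLT K m) := FiniteDimensional.of_injective
    (degreeLTEquiv K m).toLinearMap (degreeLTEquiv K m).injective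
  exact Submodule.finiteDimensional_of_le hm

theorem fd_mono {K : Type} [Field K] {B C : Submodule K K[X]} (h : Fd B) (hC : C ≤ B) : Fd C := by
  obtain ⟨m, hm⟩ := h
  exact ⟨m, hC.trans hm⟩

theorem sh_le {K : Type} [Field K] (M : ℕ) (B : Submodule K K[X]) : Sh (M + 1) B ≤ B := by
  intro y hy
  have h := hy 0 (Nat.succ_pos M)
  rw [pow_zero, one_mul] at h
  exact h

/-- the codimension of an intersection -/
theorem finrank_inf {K : Type} [Field K] {B U W : Submodule K K[X]} (hB : Fd B) (hU : U ≤ B) (hW : W ≤ B)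
    (d : ℕ) (h : finrank K B ≤ finrank K W + d) :
    finrank K U ≤ finrank K (U ⊓ W : Submodule K K[X]) + d := by
  have := fd_finite hB
  have := fd_finite (fd_mono hB hU)
  have := fd_finite (fd_mono hB hW)
  have h1 := Submodule.finrank_sup_add_finrank_inf_eq U W
  have h2 : finrank K (U ⊔ W : Submodule K K[X]) ≤ finrank K B := Submodule.finrank_mono (sup_le hU hW)
  omega

/-- multiplication by `X` -/
noncomputable def mX (K : Type) [Field K] : K[X] →ₗ[K] K[X] := LinearMap.mulLeft K (X : K[X])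

theorem mX_apply (K : Type) [Field K] (x : K[X]) : mX K x = X * x := rfl

theorem mX_inj (K : Type) [Field K] : Function.Injective (mX K) := by
  intro a b h
  rw [mX_apply, mX_apply] at h
  exact mul_left_cancel₀ X_ne_zero h

theorem finrank_map_mX {K : Type} [Field K] (U : Submodule K K[X]) :
    finrank K (U.map (mX K)) = finrank K U :=
  (LinearEquiv.finrank_eq (Submodule.equivMapOfInjective (mX K) (mX_inj K) U)).symm

end TdzAux

open TdzAux in
theorem tdz : S_tdz := by
  intro hrank hsh K _ _ Q hQ A d B hB hTD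
  set Z := Zs hQ A B with hZ
  have hZB : Z ≤ B := fun x hx => hx.1
  have hZ0 : ∀ z ∈ Z, ∀ y ∈ B, A (z ^ Q * y) = 0 := fun z hz => hz.2
  have hSB : Sh 2 B ≤ B := sh_le 1 B
  have h1 : finrank K Z ≤ finrank K (Z ⊓ Sh 2 B : Submodule K K[X]) + d :=
    finrank_inf hB hZB hSB d hTD
  set Z1 := Z ⊓ Sh 2 B with hZ1
  have hmap : Z1.map (mX K) ≤ B := by
    rintro _ ⟨z, hz, rfl⟩
    have h := hz.2 1 (by norm_num)
    rw [pow_one] at h
    rw [mX_apply]
    exact h
  have hFd1 : Fd (Z1.map (mX K)) := fd_mono hB hmap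
  have h2 := hrank K Q hQ A (Z1.map (mX K)) B hFd1 hB
  rw [finrank_map_mX] at h2
  have h3 := hsh K d Q B hB hTD
  have hrk : Sh (Q + 1) B ≤ rk Q A (Z1.map (mX K)) B := by
    intro y hy
    refine ⟨sh_le Q B hy, ?_⟩
    rintro _ ⟨z, hz, rfl⟩
    rw [mX_apply, mul_pow]
    have h := hZ0 z hz.1 (X ^ Q * y) (hy Q (Nat.lt_succ_self Q))
    rw [show X ^ Q * z ^ Q * y = z ^ Q * (X ^ Q * y) by ring]
    exact h
  have : FiniteDimensional K (rk Q A (Z1.map (mX K)) B) :=
    fd_finite (fd_mono hB (fun y hy => hy.1))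
  have h4 : finrank K (Sh (Q + 1) B) ≤ finrank K (rk Q A (Z1.map (mX K)) B) :=
    Submodule.finrank_mono hrk
  have hlk : lk hQ A (Z1.map (mX K)) B ≤ (Sh 2 Z).map (mX K) := by
    rintro _ ⟨⟨z, hz, rfl⟩, hx⟩
    refine ⟨z, ?_, rfl⟩
    intro i hi
    have hi' : i = 0 ∨ i = 1 := by omega
    rcases hi' with rfl | rfl
    · rw [pow_zero, one_mul]
      exact hz.1
    · rw [pow_one]
      exact ⟨hmap ⟨z, hz, rfl⟩, hx⟩
  have hSZ : Sh 2 Z ≤ Z := sh_le 1 Z
  have hFdSZ : Fd ((Sh 2 Z).map (mX K)) := by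
    refine fd_mono hB ?_
    rintro _ ⟨z, hz, rfl⟩
    have h := hz 1 (by norm_num)
    rw [pow_one] at h
    exact hZB h
  have := fd_finite hFdSZ
  have h5 : finrank K (lk hQ A (Z1.map (mX K)) B) ≤ finrank K (Sh 2 Z) := by
    refine (Submodule.finrank_mono hlk).trans ?_
    rw [finrank_map_mX]
  show finrank K Z ≤ finrank K (Sh 2 Z) + (Q + 1) * d
  have h6 : (Q + 1) * d = Q * d + d := by ring
  omega

end Pool.Agent.H527.MW
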