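import Pool.Agent.H527.MW.Rank
import Pool.Agent.H527.MW.Shc
import Pool.Agent.H527.MW.Tdz
import Pool.Agent.H527.MW.Tdb
import Pool.Agent.H527.MW.Mon
import Pool.Agent.H527.MW.Tdk
import Pool.Agent.H527.MW.Hank
import Pool.Agent.H527.MW.Spn
import Pool.Agent.H527.MW.Slk
import Pool.Agent.H527.MW.Inc
import Pool.Agent.H527.MW.Red
import Pool.Agent.H527.MW.Dgr
import Pool.Agent.H527.MW.Stp
import Pool.Agent.H527.MW.Grp
import Pool.Agent.H527.MW.Itr
import Pool.Agent.H527.MW.Num
import Pool.Agent.H527.MW.Lst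
import Pool.Agent.H527.MW.Key
import Pool.Agent.H527.MW.Fnw
import Pool.Agent.H527.MW.Fin

/-! # Assembly of the project MW -/

set_option autoImplicit false

namespace Pool.Agent.H527.MW

/-- The bound for the radical. -/
theorem main : S_main :=
  fnw rank shc tdz tdb tdk key inc dgr stp grp itr red
    (num rank mon1 seq mon2 tdk shc tdz tdb slk hank spn)

end Pool.Agent.H527.MW
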