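import Pool.Agent.H527.MW.Stm
import Pool.Agent.H527.WS.Fin

/-! # MW-LAST: the final bound for the sum (helper706) -/

set_option autoImplicit false

namespace Pool.Agent.H527.MW

open Polynomial Module
open scoped Classical
open Pool.Agent.H527.WS (V PQ S W Nonsing fn Near emb)

namespace LstAux

theorem rr_cases {Q : ℕ} (hQ : 2 ≤ Q) (n D : ℕ) : rr Q n D = D ∨ rr Q n D = n ∨
    (rr Q n D + D = n * (Q + 1)) ∨ (rr Q n D = 0 ∧ n * (Q + 1) ≤ D) := by
  have h1 : n ≤ Q * n := Nat.le_mul_of_pos_left n (by omega)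
  have h2 : n * (Q + 1) = Q * n + n := by ring
  rw [h2]
  unfold rr
  generalize Q * n = N at h1 ⊢
  omega

theorem key {q : ℝ} (hq : 1 < q) {Q : ℕ} (hQ : 2 ≤ Q) (n D : ℕ) :
    (q ^ rr Q n D)⁻¹ ≤ (q ^ D)⁻¹ + (q ^ n)⁻¹ + q ^ D / (q ^ n) ^ (Q + 1) := by
  have hq0 : 0 < q := by linarith
  have a1 : 0 < (q ^ D)⁻¹ := by positivity
  have a2 : 0 < (q ^ n)⁻¹ := by positivity
  have a3 : 0 < q ^ D / (q ^ n) ^ (Q + 1) := by positivity
  rcases rr_cases hQ n D with h | h | h | ⟨h, h'⟩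
  · rw [h]; linarith
  · rw [h]; linarith
  · have e : (q ^ rr Q n D)⁻¹ = q ^ D / (q ^ n) ^ (Q + 1) := by
      rw [← pow_mul, ← h, pow_add]
      field_simp
    rw [e]; linarith
  · rw [h, pow_zero, inv_one]
    have : 1 ≤ q ^ D / (q ^ n) ^ (Q + 1) := by
      rw [← pow_mul, one_le_div (by positivity)]
      exact pow_le_pow_right₀ hq.le h'
    linarith

end LstAux

/-- **MW-LAST.** -/
theorem lst : S_last := by
  intro hmain K _ _ ψ Q hQ hψ ε hε
  obtain ⟨C, hC, h⟩ := hmain K ψ Q hQ hψ (2 * ε) (by positivity)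
  refine ⟨Real.sqrt C, Real.sqrt_pos.2 hC, fun n A ξ D hD => ?_⟩
  have hq1 : (1 : ℝ) < (Fintype.card K : ℝ) := Pool.Agent.H527.WS.one_lt_q
  have hq0 : (0 : ℝ) < (Fintype.card K : ℝ) := by linarith
  have hQ2 : 2 ≤ Q := PQ_pos hQ
  have hQ1 : (0 : ℝ) < (Q : ℝ) + 1 := by positivity
  have h1 := Pool.Agent.H527.WS.norm_le_of_W (e := (rr Q n D : ℝ) / (Q + 1) - ε * n) hQ ξ hC
    ((h n D A hD).trans (le_of_eq (by
      congr 2
      ring)))
  refine h1.trans ?_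
  have e1 : (Fintype.card K : ℝ) ^ ((n : ℝ) - ((rr Q n D : ℝ) / (Q + 1) - ε * n)) =
      ((Fintype.card K : ℝ) ^ n) ^ (1 + ε) *
        (((Fintype.card K : ℝ) ^ rr Q n D)⁻¹) ^ ((1 : ℝ) / (Q + 1)) := by
    rw [← Real.rpow_natCast _ n, ← Real.rpow_natCast _ (rr Q n D), ← Real.rpow_neg hq0.le,
      ← Real.rpow_mul hq0.le, ← Real.rpow_mul hq0.le, ← Real.rpow_add hq0]
    congr 1
    field_simp
    ring
  rw [e1, ← mul_assoc]
  exact mul_le_mul_of_nonneg_left (Real.rpow_le_rpow (by positivity) (LstAux.key hq1 hQ2 n D)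
    (by positivity)) (by positivity)

end Pool.Agent.H527.MW
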