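import Pool.Agent.H527.MW.Stm

/-!
# MW-RANK: equality of the ranks of `N(x, y) = A(x^Q y)` (helper141)
-/

set_option autoImplicit false

namespace Pool.Agent.H527.MW

open Polynomial Module
open Pool.Agent.H527.WS (PQ)

namespace RankAux

theorem neg_pow_PQ {K : Type} [Field K] {Q : ℕ} (hQ : PQ K Q) (x : K[X]) : (-x) ^ Q = -x ^ Q := by
  have h1 : ((-x) + x) ^ Q = (-x) ^ Q + x ^ Q := add_pow_PQ hQ _ _
  have h2 := PQ_pos hQ
  rw [neg_add_cancel, zero_pow (by omega)] at h1
  exact eq_neg_of_add_eq_zero_left h1.symm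

theorem pow_inj {K : Type} [Field K] {Q : ℕ} (hQ : PQ K Q) {x y : K[X]} (h : x ^ Q = y ^ Q) :
    x = y := by
  have h1 : (x + -y) ^ Q = 0 := by
    rw [add_pow_PQ hQ, neg_pow_PQ hQ, h, add_neg_cancel]
  have h2 := PQ_pos hQ
  have h3 : x + -y = 0 := pow_eq_zero_iff (by omega) |>.1 h1
  rw [← sub_eq_add_neg] at h3
  exact sub_eq_zero.1 h3

theorem pow_surj {K : Type} [Field K] [Fintype K] {Q : ℕ} (hQ : PQ K Q) (c : K) :
    ∃ c' : K, c' ^ Q = c := by
  have hinj : Function.Injective fun c : K => c ^ Q := by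
    intro a b hab
    have h1 : (C a : K[X]) = C b := by
      apply pow_inj hQ
      rw [← C_pow, ← C_pow]
      exact congrArg C hab
    exact C_injective h1
  exact (Finite.surjective_of_injective hinj) c

/-- `{x ^ Q : x ∈ B}` -/
def img {K : Type} [Field K] [Fintype K] {Q : ℕ} (hQ : PQ K Q) (B : Submodule K K[X]) :
    Submodule K K[X] where
  carrier := {u | ∃ x ∈ B, x ^ Q = u}
  add_mem' := by
    rintro _ _ ⟨x, hx, rfl⟩ ⟨y, hy, rfl⟩
    exact ⟨x + y, B.add_mem hx hy, add_pow_PQ hQ x y⟩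
  zero_mem' := by
    have := PQ_pos hQ
    exact ⟨0, B.zero_mem, zero_pow (by omega)⟩
  smul_mem' := by
    rintro c _ ⟨x, hx, rfl⟩
    obtain ⟨c', hc⟩ := pow_surj hQ c
    exact ⟨c' • x, B.smul_mem c' hx, by rw [_root_.smul_pow, hc]⟩

theorem fin_of_Fd {K : Type} [Field K] {B : Submodule K K[X]} (h : Fd B) : Module.Finite K B := by
  obtain ⟨m, hm⟩ := h
  have h1 : Module.Finite K (degreeLT K m) := by
    have e := degreeLTEquiv K m
    exact Module.Finite.equiv e.symm
  exact Submodule.finiteDimensional_of_le hm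

theorem img_Fd {K : Type} [Field K] [Fintype K] {Q : ℕ} (hQ : PQ K Q) {B : Submodule K K[X]}
    (h : Fd B) : Fd (img hQ B) := by
  obtain ⟨m, hm⟩ := h
  have h2 := PQ_pos hQ
  refine ⟨Q * m, ?_⟩
  rintro _ ⟨x, hx, rfl⟩
  have h1 := mem_degreeLT.1 (hm hx)
  rw [mem_degreeLT]
  by_cases hx0 : x = 0
  · rw [hx0, zero_pow (by omega), degree_zero]
    exact WithBot.bot_lt_coe _
  · rw [degree_eq_natDegree (pow_ne_zero _ hx0), natDegree_pow]
    rw [degree_eq_natDegree hx0] at h1
    have h3 : x.natDegree < m := by exact_mod_cast h1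
    have h4 : Q * x.natDegree < Q * m := Nat.mul_lt_mul_of_pos_left h3 (by omega)
    exact_mod_cast h4

theorem finrank_img {K : Type} [Field K] [Fintype K] {Q : ℕ} (hQ : PQ K Q) {B : Submodule K K[X]}
    (h : Fd B) : finrank K (img hQ B) = finrank K B := by
  have i1 := fin_of_Fd h
  have i2 := fin_of_Fd (img_Fd hQ h)
  have hc : Nat.card B = Nat.card (img hQ B) := by
    refine Nat.card_congr (Equiv.ofBijective (fun x : B => (⟨(x : K[X]) ^ Q, x, x.2, rfl⟩ : img hQ B))
      ⟨?_, ?_⟩)
    · intro x y hxy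
      have h1 : (x : K[X]) ^ Q = (y : K[X]) ^ Q := congrArg Subtype.val hxy
      exact Subtype.ext (pow_inj hQ h1)
    · rintro ⟨_, x, hx, rfl⟩
      exact ⟨⟨x, hx⟩, rfl⟩
  have e1 := Module.natCard_eq_pow_finrank (K := K) (V := B)
  have e2 := Module.natCard_eq_pow_finrank (K := K) (V := img hQ B)
  rw [e1, e2] at hc
  have h1 : 1 < Nat.card K := Finite.one_lt_card
  exact (Nat.pow_right_injective h1 hc).symm

end RankAux

open RankAux in
theorem rank : S_rank := by
  intro K _ _ Q hQ A B Y hB hY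
  have iB := fin_of_Fd hB
  have iY := fin_of_Fd hY
  have iI := fin_of_Fd (img_Fd hQ hB)
  have hL : Fd (lk hQ A B Y) := by
    obtain ⟨m, hm⟩ := hB
    exact ⟨m, fun x hx => hm hx.1⟩
  let β : img hQ B →ₗ[K] Module.Dual K Y :=
    { toFun := fun u =>
        { toFun := fun y => A ((u : K[X]) * y)
          map_add' := fun y z => by
            rw [Submodule.coe_add, mul_add, map_add]
          map_smul' := fun c y => by
            rw [Submodule.coe_smul, mul_smul_comm, map_smul, RingHom.id_apply] }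
      map_add' := fun u v => by
        ext y
        show A (((u + v : img hQ B) : K[X]) * y) = A ((u : K[X]) * y) + A ((v : K[X]) * y)
        rw [Submodule.coe_add, add_mul, map_add]
      map_smul' := fun c u => by
        ext y
        show A (((c • u : img hQ B) : K[X]) * y) = c • A ((u : K[X]) * y)
        rw [Submodule.coe_smul, smul_mul_assoc, map_smul] }
  have hβ : ∀ (u : img hQ B) (y : Y), β u y = A ((u : K[X]) * y) := fun _ _ => rfl
  have h1 : finrank K (LinearMap.range β) + finrank K (LinearMap.ker β) = finrank K (img hQ B) :=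
    LinearMap.finrank_range_add_finrank_ker β
  have h2 : finrank K (LinearMap.range β) +
      finrank K (Submodule.dualCoannihilator (LinearMap.range β)) = finrank K Y :=
    Subspace.finrank_add_finrank_dualCoannihilator_eq _
  have h3 : finrank K (LinearMap.ker β) = finrank K (lk hQ A B Y) := by
    rw [← finrank_img hQ hL, ← Submodule.finrank_map_subtype_eq (img hQ B) (LinearMap.ker β)]
    have h4 : (LinearMap.ker β).map (img hQ B).subtype = img hQ (lk hQ A B Y) := by
      ext u
      constructor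
      · rintro ⟨⟨_, x, hx, rfl⟩, hu, rfl⟩
        refine ⟨x, ⟨hx, fun y hy => ?_⟩, rfl⟩
        have h5 := LinearMap.congr_fun (LinearMap.mem_ker.1 hu) ⟨y, hy⟩
        exact h5
      · rintro ⟨x, ⟨hx, hx'⟩, rfl⟩
        refine ⟨⟨x ^ Q, x, hx, rfl⟩, ?_, rfl⟩
        refine LinearMap.mem_ker.2 ?_
        ext y
        exact hx' y y.2
    rw [h4]
  have h6 : finrank K (Submodule.dualCoannihilator (LinearMap.range β)) = finrank K (rk Q A B Y) := by
    rw [← Submodule.finrank_map_subtype_eq Y (Submodule.dualCoannihilator (LinearMap.range β))]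
    have h7 : (Submodule.dualCoannihilator (LinearMap.range β)).map Y.subtype = rk Q A B Y := by
      ext y
      constructor
      · rintro ⟨z, hz, rfl⟩
        refine ⟨z.2, fun x hx => ?_⟩
        exact (Submodule.mem_dualCoannihilator z).1 hz _ ⟨⟨x ^ Q, x, hx, rfl⟩, rfl⟩
      · rintro ⟨hy, hy'⟩
        refine ⟨⟨y, hy⟩, ?_, rfl⟩
        refine (Submodule.mem_dualCoannihilator _).2 ?_
        rintro _ ⟨⟨_, x, hx, rfl⟩, rfl⟩
        exact hy' x hx
    rw [h7]
  have h8 := finrank_img hQ hB
  omega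

end Pool.Agent.H527.MW
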